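import Pool.Agent.N234.NL.Alg

set_option autoImplicit false
set_option linter.unusedSectionVars false

open Filter Topology Set Module

namespace Pool.Agent.N234.NL

open Pool.Agent.W740.TC

noncomputable section

variable {𝒜 : Type*} [NormedRing 𝒜] [NormedAlgebra ℂ 𝒜] [FiniteDimensional ℂ 𝒜]

/-- conjugation -/
def cj (T : 𝒜ˣ) : 𝒜 ≃ₐ[ℂ] 𝒜 where
  toFun a := T * a * (T⁻¹ : 𝒜ˣ)
  invFun a := (T⁻¹ : 𝒜ˣ) * a * T
  left_inv a := by simp [mul_assoc]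
  right_inv a := by simp [mul_assoc]
  map_mul' a b := by simp [mul_assoc]
  map_add' a b := by simp [mul_add, add_mul]
  commutes' r := by
    show (T : 𝒜) * algebraMap ℂ 𝒜 r * (T⁻¹ : 𝒜ˣ) = algebraMap ℂ 𝒜 r
    rw [← Algebra.commutes r (T : 𝒜), mul_assoc, Units.mul_inv, mul_one]

theorem cj_apply (T : 𝒜ˣ) (a : 𝒜) : cj T a = T * a * (T⁻¹ : 𝒜ˣ) := rfl
theorem cj_symm_apply (T : 𝒜ˣ) (a : 𝒜) : (cj T).symm a = (T⁻¹ : 𝒜ˣ) * a * T := rfl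

namespace FA

variable {T : 𝒜ˣ} (D : FA (cj T))

theorem conj_U {u : 𝒜ˣ} (hu : u ∈ D.U) : T * u * T⁻¹ ∈ D.U := by
  show ((T * u * T⁻¹ : 𝒜ˣ) : 𝒜) - 1 ∈ D.F 1
  have h1 : ((T * u * T⁻¹ : 𝒜ˣ) : 𝒜) - 1 = cj T ((u : 𝒜) - 1) := by
    rw [map_sub, map_one]; rfl
  rw [h1]
  exact D.map hu

theorem conj_U' {u : 𝒜ˣ} (hu : u ∈ D.U) : T⁻¹ * u * T ∈ D.U := by
  show ((T⁻¹ * u * T : 𝒜ˣ) : 𝒜) - 1 ∈ D.F 1
  have h1 : ((T⁻¹ * u * T : 𝒜ˣ) : 𝒜) - 1 = (cj T).symm ((u : 𝒜) - 1) := by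
    rw [map_sub, map_one]; rfl
  rw [h1]
  exact D.map_symm hu

theorem conj_Uc {u : 𝒜ˣ} (hu : u ∈ D.Uc) : T * u * T⁻¹ ∈ D.Uc := by
  show ((T * u * T⁻¹ : 𝒜ˣ) : 𝒜) - 1 ∈ D.Fc
  have h1 : ((T * u * T⁻¹ : 𝒜ˣ) : 𝒜) - 1 = cj T ((u : 𝒜) - 1) := by
    rw [map_sub, map_one]; rfl
  rw [h1]
  exact ⟨D.map hu.1, Wc_map _ _ hu.2⟩

theorem conj_Uc' {u : 𝒜ˣ} (hu : u ∈ D.Uc) : T⁻¹ * u * T ∈ D.Uc := by
  show ((T⁻¹ * u * T : 𝒜ˣ) : 𝒜) - 1 ∈ D.Fc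
  have h1 : ((T⁻¹ * u * T : 𝒜ˣ) : 𝒜) - 1 = (cj T).symm ((u : 𝒜) - 1) := by
    rw [map_sub, map_one]; rfl
  rw [h1]
  exact ⟨D.map_symm hu.1, symm_mem (cj T).toLinearEquiv _ (Wc_map _) _ hu.2⟩

theorem conj_Uu {u : 𝒜ˣ} (hu : u ∈ D.Uu) : T * u * T⁻¹ ∈ D.Uu := by
  show ((T * u * T⁻¹ : 𝒜ˣ) : 𝒜) - 1 ∈ D.Fu
  have h1 : ((T * u * T⁻¹ : 𝒜ˣ) : 𝒜) - 1 = cj T ((u : 𝒜) - 1) := by
    rw [map_sub, map_one]; rfl
  rw [h1]
  exact ⟨D.map hu.1, Wu_map _ _ hu.2⟩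

/-- the powers of `T` -/
def tau (T : 𝒜ˣ) : Multiplicative ℤ →* 𝒜ˣ := zpowersHom 𝒜ˣ T

theorem tau_apply (n : Multiplicative ℤ) : tau T n = T ^ (Multiplicative.toAdd n) := rfl

theorem zconj {H : Subgroup 𝒜ˣ} (h1 : ∀ u ∈ H, T * u * T⁻¹ ∈ H) (h2 : ∀ u ∈ H, T⁻¹ * u * T ∈ H)
    (n : ℤ) : ∀ u ∈ H, T ^ n * u * (T ^ n)⁻¹ ∈ H := by
  induction n with
  | zero => intro u hu; simpa using hu
  | succ n ih =>
    intro u hu
    have h3 : T ^ ((n : ℤ) + 1) * u * (T ^ ((n : ℤ) + 1))⁻¹ = T ^ (n : ℤ) * (T * u * T⁻¹) *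
        (T ^ (n : ℤ))⁻¹ := by
      rw [zpow_add_one, mul_inv_rev]
      simp only [mul_assoc]
    rw [h3]
    exact ih _ (h1 u hu)
  | pred n ih =>
    intro u hu
    have h3 : T ^ (-(n : ℤ) - 1) * u * (T ^ (-(n : ℤ) - 1))⁻¹ = T ^ (-(n : ℤ)) * (T⁻¹ * u * T) *
        (T ^ (-(n : ℤ)))⁻¹ := by
      rw [zpow_sub_one, mul_inv_rev, inv_inv]
      simp only [mul_assoc]
    rw [h3]
    exact ih _ (h2 u hu)

theorem tau_U (n : Multiplicative ℤ) {u : 𝒜ˣ} (hu : u ∈ D.U) : tau T n * u * (tau T n)⁻¹ ∈ D.U :=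
  zconj (fun _ => D.conj_U) (fun _ => D.conj_U') _ u hu

theorem tau_Uc (n : Multiplicative ℤ) {u : 𝒜ˣ} (hu : u ∈ D.Uc) :
    tau T n * u * (tau T n)⁻¹ ∈ D.Uc :=
  zconj (fun _ => D.conj_Uc) (fun _ => D.conj_Uc') _ u hu

theorem tau_comm (m n : Multiplicative ℤ) : tau T m * tau T n = tau T n * tau T m := by
  rw [← map_mul, mul_comm, map_mul]

/-- the group generated by `U` and `T` -/
def S : Subgroup (𝒜ˣ × Multiplicative ℤ) where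
  carrier := {s | s.1 * (tau T s.2)⁻¹ ∈ D.U}
  one_mem' := by
    show (1 : 𝒜ˣ) * (tau T 1)⁻¹ ∈ D.U
    rw [map_one, inv_one, mul_one]
    exact D.U.one_mem
  mul_mem' := by
    intro s t hs ht
    show (s.1 * t.1) * (tau T (s.2 * t.2))⁻¹ ∈ D.U
    have h1 : (s.1 * t.1) * (tau T (s.2 * t.2))⁻¹ =
        (s.1 * (tau T s.2)⁻¹) * (tau T s.2 * (t.1 * (tau T t.2)⁻¹) * (tau T s.2)⁻¹) := by
      rw [map_mul, mul_inv_rev]
      simp only [mul_assoc, inv_mul_cancel_left]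
    rw [h1]
    exact D.U.mul_mem hs (D.tau_U _ ht)
  inv_mem' := by
    intro s hs
    show s.1⁻¹ * (tau T s.2⁻¹)⁻¹ ∈ D.U
    have h1 : s.1⁻¹ * (tau T s.2⁻¹)⁻¹ =
        tau T s.2⁻¹ * (s.1 * (tau T s.2)⁻¹)⁻¹ * (tau T s.2⁻¹)⁻¹ := by
      rw [map_inv, mul_inv_rev, inv_inv]
      simp only [inv_mul_cancel_left]
    rw [h1]
    exact D.tau_U _ (D.U.inv_mem hs)

theorem arg_mem (s : D.S) (k : D.Uu) : s.1.1 * (k : 𝒜ˣ) * (tau T s.1.2)⁻¹ ∈ D.U := by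
  have h1 : s.1.1 * (k : 𝒜ˣ) * (tau T s.1.2)⁻¹ =
      (s.1.1 * (tau T s.1.2)⁻¹) * (tau T s.1.2 * k * (tau T s.1.2)⁻¹) := by
    simp only [mul_assoc, inv_mul_cancel_left]
  rw [h1]
  exact D.U.mul_mem s.2 (D.tau_U _ (D.Uu_le k.2))

instance : MulAction D.S D.Uu where
  smul s k := ⟨D.ku (s.1.1 * k * (tau T s.1.2)⁻¹), D.ku_mem _⟩
  one_smul k := by
    apply Subtype.ext
    show D.ku ((1 : 𝒜ˣ) * k * (tau T 1)⁻¹) = k
    rw [map_one, inv_one, mul_one, one_mul, D.ku_self k.2]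
  mul_smul s t k := by
    apply Subtype.ext
    show D.ku ((s.1.1 * t.1.1) * k * (tau T (s.1.2 * t.1.2))⁻¹) =
      D.ku (s.1.1 * D.ku (t.1.1 * k * (tau T t.1.2)⁻¹) * (tau T s.1.2)⁻¹)
    set h := t.1.1 * (k : 𝒜ˣ) * (tau T t.1.2)⁻¹ with hh
    have hU : h ∈ D.U := D.arg_mem t k
    have h1 := D.ku_c hU
    have h2 : (s.1.1 * t.1.1) * (k : 𝒜ˣ) * (tau T (s.1.2 * t.1.2))⁻¹ =
        (s.1.1 * D.ku h * (tau T s.1.2)⁻¹) *
          (tau T s.1.2 * ((D.ku h)⁻¹ * h) * (tau T s.1.2)⁻¹) := by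
      rw [map_mul, mul_inv_rev, hh]
      simp only [mul_assoc, inv_mul_cancel_left, mul_inv_cancel_left]
    rw [h2, D.ku_mul_c _ (D.tau_Uc _ h1)]
    exact D.arg_mem s ⟨D.ku h, D.ku_mem h⟩

theorem smul_val (s : D.S) (k : D.Uu) :
    ((s • k : D.Uu) : 𝒜ˣ) = D.ku (s.1.1 * k * (tau T s.1.2)⁻¹) := rfl

theorem continuous_tau : Continuous (tau T) := continuous_of_discreteTopology

theorem continuous_units {X : Type*} [TopologicalSpace X] {h : X → 𝒜ˣ} :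
    Continuous h ↔ Continuous (fun x => (h x : 𝒜)) := by
  have : CompleteSpace 𝒜 := FiniteDimensional.complete ℂ 𝒜
  exact Units.isOpenEmbedding_val.isEmbedding.continuous_iff

theorem continuous_ku {X : Type*} [TopologicalSpace X] {h : X → 𝒜ˣ} (hh : Continuous h)
    (hU : ∀ x, h x ∈ D.U) : Continuous (fun x => D.ku (h x)) := by
  rw [continuous_units]
  simp only [D.ku_val (hU _)]
  exact continuous_const.add (D.yu_continuous.comp ((continuous_units.mp hh).sub continuous_const))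

instance : ContinuousSMul D.S D.Uu where
  continuous_smul := by
    rw [Topology.IsInducing.subtypeVal.continuous_iff]
    show Continuous (fun q : D.S × D.Uu => D.ku (q.1.1.1 * q.2 * (tau T q.1.1.2)⁻¹))
    apply D.continuous_ku
    · have h1 : Continuous (fun q : D.S × D.Uu => tau T q.1.1.2) :=
        continuous_tau.comp (by fun_prop)
      fun_prop
    · exact fun q => D.arg_mem q.1 q.2

theorem isClosed_SG (K : Submodule ℂ 𝒜) (hK : ∀ a ∈ K, ∀ b ∈ K, a * b ∈ K) :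
    IsClosed ((SG K hK : Subgroup 𝒜ˣ) : Set 𝒜ˣ) := by
  have h1 : IsClosed (K : Set 𝒜) := Submodule.closed_of_finiteDimensional K
  exact h1.preimage (Units.continuous_val.sub continuous_const)

instance locallyCompact_units : LocallyCompactSpace 𝒜ˣ := by
  have : CompleteSpace 𝒜 := FiniteDimensional.complete ℂ 𝒜
  have : ProperSpace 𝒜 := FiniteDimensional.proper ℂ 𝒜
  exact Units.isOpenEmbedding_val.locallyCompactSpace

instance : LocallyCompactSpace D.Uu :=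
  (isClosed_SG _ _ : IsClosed (D.Uu : Set 𝒜ˣ)).isClosedEmbedding_subtypeVal.locallyCompactSpace

theorem isClosed_S : IsClosed (D.S : Set (𝒜ˣ × Multiplicative ℤ)) := by
  have h1 : IsClosed (D.U : Set 𝒜ˣ) := isClosed_SG _ _
  refine h1.preimage (f := fun s : 𝒜ˣ × Multiplicative ℤ => s.1 * (tau T s.2)⁻¹) ?_
  have h1 : Continuous (fun q : 𝒜ˣ × Multiplicative ℤ => tau T q.2) :=
    continuous_tau.comp (by fun_prop)
  fun_prop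

end FA

end

end Pool.Agent.N234.NL
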