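import Pool.Agent.N234.NL.Spec

set_option autoImplicit false
set_option linter.unusedSectionVars false

open Filter Topology Set Module

namespace Pool.Agent.N234.NL

open Pool.Agent.W740.TC

noncomputable section

variable {𝒜 : Type*} [NormedRing 𝒜] [NormedAlgebra ℂ 𝒜] [FiniteDimensional ℂ 𝒜]

section sub

/-- inverses in `1 + K` -/
theorem inv_mem_sub (K : Submodule ℂ 𝒜) (hK : ∀ a ∈ K, ∀ b ∈ K, a * b ∈ K) (u : 𝒜ˣ)
    (hu : (u : 𝒜) - 1 ∈ K) : ((u⁻¹ : 𝒜ˣ) : 𝒜) - 1 ∈ K := by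
  let f : K →ₗ[ℂ] K := (LinearMap.mulLeft ℂ (u : 𝒜)).restrict (fun a ha => by
    have h1 : (u : 𝒜) * a = a + ((u : 𝒜) - 1) * a := by noncomm_ring
    show (u : 𝒜) * a ∈ K
    rw [h1]
    exact K.add_mem ha (hK _ hu _ ha))
  have hf : Function.Injective f := by
    intro a b hab
    apply Subtype.ext
    have h1 : (u : 𝒜) * (a : 𝒜) = (u : 𝒜) * (b : 𝒜) := congrArg Subtype.val hab
    exact u.isUnit.mul_left_cancel h1
  obtain ⟨y, hy⟩ := (LinearMap.injective_iff_surjective.mp hf) ⟨_, hu⟩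
  have h1 : (u : 𝒜) * (y : 𝒜) = (u : 𝒜) - 1 := congrArg Subtype.val hy
  have h2 : ((u⁻¹ : 𝒜ˣ) : 𝒜) - 1 = -(y : 𝒜) := by
    apply u.isUnit.mul_left_cancel
    rw [mul_sub, Units.mul_inv, mul_one, mul_neg, h1]
    abel
  rw [h2]
  exact K.neg_mem y.2

/-- the group `1 + K` -/
def SG (K : Submodule ℂ 𝒜) (hK : ∀ a ∈ K, ∀ b ∈ K, a * b ∈ K) : Subgroup 𝒜ˣ where
  carrier := {u | (u : 𝒜) - 1 ∈ K}
  one_mem' := by
    show ((1 : 𝒜ˣ) : 𝒜) - 1 ∈ K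
    rw [Units.val_one, sub_self]
    exact K.zero_mem
  mul_mem' := by
    intro u v hu hv
    show ((u * v : 𝒜ˣ) : 𝒜) - 1 ∈ K
    have h1 : ((u * v : 𝒜ˣ) : 𝒜) - 1 =
        ((u : 𝒜) - 1) * ((v : 𝒜) - 1) + ((u : 𝒜) - 1) + ((v : 𝒜) - 1) := by
      rw [Units.val_mul]; noncomm_ring
    rw [h1]
    exact K.add_mem (K.add_mem (hK _ hu _ hv) hu) hv
  inv_mem' := fun {u} hu => inv_mem_sub K hK u hu

theorem mem_SG {K : Submodule ℂ 𝒜} {hK : ∀ a ∈ K, ∀ b ∈ K, a * b ∈ K} {u : 𝒜ˣ} :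
    u ∈ SG K hK ↔ (u : 𝒜) - 1 ∈ K := Iff.rfl

end sub

section aut

variable (α : 𝒜 ≃ₐ[ℂ] 𝒜)

/-- expanding part -/
abbrev Au : Submodule ℂ 𝒜 := Wu (α.toLinearEquiv : 𝒜 →ₗ[ℂ] 𝒜)

/-- non-expanding part -/
abbrev Ac : Submodule ℂ 𝒜 := Wc (α.toLinearEquiv : 𝒜 →ₗ[ℂ] 𝒜)

/-- the projection to the expanding part -/
abbrev P : 𝒜 →ₗ[ℂ] 𝒜 := Pu α.toLinearEquiv

theorem iter_mul (n : ℕ) (a b : 𝒜) : α^[n] (a * b) = α^[n] a * α^[n] b := by
  induction n generalizing a b with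
  | zero => rfl
  | succ n ih => rw [Function.iterate_succ_apply, map_mul, ih]; rfl

theorem symm_iter_mul (n : ℕ) (a b : 𝒜) :
    α.symm^[n] (a * b) = α.symm^[n] a * α.symm^[n] b := by
  induction n generalizing a b with
  | zero => rfl
  | succ n ih => rw [Function.iterate_succ_apply, map_mul, ih]; rfl

theorem mul_u {a b : 𝒜} (ha : a ∈ Au α) (hb : b ∈ Au α) : a * b ∈ Au α := by
  obtain ⟨C, l, hC, hl0, hl1, h⟩ := Wu_unif α.toLinearEquiv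
  apply dec_mem α.toLinearEquiv
  refine ⟨C * ‖a‖ * (C * ‖b‖), l, hl0, hl1, fun n => ?_⟩
  have h1 : (α.toLinearEquiv.symm)^[n] (a * b) =
      (α.toLinearEquiv.symm)^[n] a * (α.toLinearEquiv.symm)^[n] b := symm_iter_mul α n a b
  rw [h1]
  refine (norm_mul_le _ _).trans ?_
  have h2 := h n a ha
  have h3 := h n b hb
  have h4 : l ^ n ≤ 1 := pow_le_one₀ hl0 hl1.le
  calc ‖(α.toLinearEquiv.symm)^[n] a‖ * ‖(α.toLinearEquiv.symm)^[n] b‖
      ≤ (C * l ^ n * ‖a‖) * (C * l ^ n * ‖b‖) :=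
        mul_le_mul h2 h3 (norm_nonneg _) ((norm_nonneg _).trans h2)
    _ ≤ (C * l ^ n * ‖a‖) * (C * 1 * ‖b‖) := by gcongr
    _ = _ := by ring

theorem mul_c {a b : 𝒜} (ha : a ∈ Ac α) (hb : b ∈ Ac α) : a * b ∈ Ac α := by
  apply sub_mem' α.toLinearEquiv
  intro δ hδ
  obtain ⟨ε, hε, hε2⟩ : ∃ ε : ℝ, 0 < ε ∧ (1 + ε) * (1 + ε) ≤ 1 + δ := by
    refine ⟨min 1 (δ / 3), by positivity, ?_⟩
    have h1 := min_le_left 1 (δ / 3)
    have h2 := min_le_right 1 (δ / 3)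
    have h3 : 0 < min 1 (δ / 3) := by positivity
    nlinarith
  obtain ⟨C, hC, h⟩ := Wc_unif α.toLinearEquiv ε hε
  refine ⟨C * ‖a‖ * (C * ‖b‖), fun n => ?_⟩
  have h1 : (α.toLinearEquiv)^[n] (a * b) =
      (α.toLinearEquiv)^[n] a * (α.toLinearEquiv)^[n] b := iter_mul α n a b
  rw [h1]
  refine (norm_mul_le _ _).trans ?_
  have h2 := h n a ha
  have h3 := h n b hb
  have h4 : (1 + ε) ^ n * (1 + ε) ^ n ≤ (1 + δ) ^ n := by
    rw [← mul_pow]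
    exact pow_le_pow_left₀ (by positivity) hε2 n
  calc ‖(α.toLinearEquiv)^[n] a‖ * ‖(α.toLinearEquiv)^[n] b‖
      ≤ (C * (1 + ε) ^ n * ‖a‖) * (C * (1 + ε) ^ n * ‖b‖) :=
        mul_le_mul h2 h3 (norm_nonneg _) ((norm_nonneg _).trans h2)
    _ = C * ‖a‖ * (C * ‖b‖) * ((1 + ε) ^ n * (1 + ε) ^ n) := by ring
    _ ≤ _ := by gcongr

end aut

/-- a filtered algebra with an automorphism -/
structure FA (α : 𝒜 ≃ₐ[ℂ] 𝒜) where
  F : ℕ → Submodule ℂ 𝒜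
  d : ℕ
  anti : ∀ i, F (i + 1) ≤ F i
  mul : ∀ {i j : ℕ} {a b : 𝒜}, a ∈ F i → b ∈ F j → a * b ∈ F (i + j)
  bot : F d = ⊥
  map : ∀ {i : ℕ} {a : 𝒜}, a ∈ F i → α a ∈ F i

namespace FA

variable {α : 𝒜 ≃ₐ[ℂ] 𝒜} (D : FA α)

theorem le {i j : ℕ} (h : i ≤ j) : D.F j ≤ D.F i :=
  antitone_nat_of_succ_le D.anti h

theorem eq_zero {i : ℕ} (h : D.d ≤ i) {a : 𝒜} (ha : a ∈ D.F i) : a = 0 := by
  have := D.le h ha
  rwa [D.bot, Submodule.mem_bot] at this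

theorem map_symm {i : ℕ} {a : 𝒜} (ha : a ∈ D.F i) : α.symm a ∈ D.F i :=
  symm_mem α.toLinearEquiv (D.F i) (fun _ hx => D.map hx) a ha

theorem P_mem {i : ℕ} {a : 𝒜} (ha : a ∈ D.F i) : P α a ∈ D.F i :=
  Pu_inv α.toLinearEquiv (D.F i) (fun _ hx => D.map hx) a ha

theorem mul1 {a b : 𝒜} (ha : a ∈ D.F 1) (hb : b ∈ D.F 1) : a * b ∈ D.F 1 :=
  D.le (by norm_num) (D.mul ha hb)

/-- the subspaces -/
def Fu : Submodule ℂ 𝒜 := D.F 1 ⊓ Au α
def Fc : Submodule ℂ 𝒜 := D.F 1 ⊓ Ac α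

/-- the groups -/
def U : Subgroup 𝒜ˣ := SG (D.F 1) fun _ ha _ hb => D.mul1 ha hb
def Uu : Subgroup 𝒜ˣ := SG D.Fu fun _ ha _ hb => ⟨D.mul1 ha.1 hb.1, mul_u α ha.2 hb.2⟩
def Uc : Subgroup 𝒜ˣ := SG D.Fc fun _ ha _ hb => ⟨D.mul1 ha.1 hb.1, mul_c α ha.2 hb.2⟩

theorem Uu_le : D.Uu ≤ D.U := fun _ h => h.1
theorem Uc_le : D.Uc ≤ D.U := fun _ h => h.1

theorem Uu_Uc {u : 𝒜ˣ} (h1 : u ∈ D.Uu) (h2 : u ∈ D.Uc) : u = 1 := by
  have h3 := (W_compl (α.toLinearEquiv : 𝒜 →ₗ[ℂ] 𝒜)).disjoint.le_bot ⟨h1.2, h2.2⟩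
  rw [Submodule.mem_bot, sub_eq_zero] at h3
  exact Units.ext h3

/-- the successive approximations of the factors -/
def YZ (D : FA α) (x : 𝒜) : ℕ → 𝒜 × 𝒜
  | 0 => (0, 0)
  | n + 1 => (P α (x - (YZ D x n).1 * (YZ D x n).2),
      (x - (YZ D x n).1 * (YZ D x n).2) - P α (x - (YZ D x n).1 * (YZ D x n).2))

theorem YZ_succ (x : 𝒜) (n : ℕ) : D.YZ x (n + 1) = (P α (x - (D.YZ x n).1 * (D.YZ x n).2),
      (x - (D.YZ x n).1 * (D.YZ x n).2) - P α (x - (D.YZ x n).1 * (D.YZ x n).2)) := rfl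

theorem YZ_mem {x : 𝒜} (hx : x ∈ D.F 1) (n : ℕ) : (D.YZ x n).1 ∈ D.Fu ∧ (D.YZ x n).2 ∈ D.Fc := by
  induction n with
  | zero => exact ⟨Submodule.zero_mem _, Submodule.zero_mem _⟩
  | succ n ih =>
    have h1 : x - (D.YZ x n).1 * (D.YZ x n).2 ∈ D.F 1 :=
      Submodule.sub_mem _ hx (D.mul1 ih.1.1 ih.2.1)
    rw [YZ_succ]
    exact ⟨⟨D.P_mem h1, Pu_mem _ _⟩, ⟨Submodule.sub_mem _ h1 (D.P_mem h1), Pc_mem _ _⟩⟩

/-- congruences -/
theorem YZ_cong {x e : 𝒜} (hx : x ∈ D.F 1) {i : ℕ} (he : e ∈ D.F (i + 1)) (n : ℕ) :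
    (D.YZ (x + e) n).1 - (D.YZ x n).1 ∈ D.F (i + 1) ∧
      (D.YZ (x + e) n).2 - (D.YZ x n).2 ∈ D.F (i + 1) := by
  have hxe : x + e ∈ D.F 1 := Submodule.add_mem _ hx (D.le (by omega) he)
  induction n with
  | zero =>
    refine ⟨?_, ?_⟩ <;> · show (0 : 𝒜) - 0 ∈ _; rw [sub_self]; exact Submodule.zero_mem _
  | succ n ih =>
    obtain ⟨a1, a2⟩ := D.YZ_mem hx n
    obtain ⟨b1, b2⟩ := D.YZ_mem hxe n
    set y := (D.YZ x n).1
    set z := (D.YZ x n).2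
    set y' := (D.YZ (x + e) n).1
    set z' := (D.YZ (x + e) n).2
    have h1 : y' * z' - y * z ∈ D.F (i + 1) := by
      have h2 : y' * z' - y * z = (y' - y) * z' + y * (z' - z) := by noncomm_ring
      rw [h2]
      refine Submodule.add_mem _ (D.le (by omega) (D.mul ih.1 b2.1))
        (D.le (by omega) (D.mul a1.1 ih.2))
    have h3 : (x + e - y' * z') - (x - y * z) = e - (y' * z' - y * z) := by abel
    have h4 : (x + e - y' * z') - (x - y * z) ∈ D.F (i + 1) := by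
      rw [h3]; exact Submodule.sub_mem _ he h1
    rw [YZ_succ, YZ_succ]
    show P α (x + e - y' * z') - P α (x - y * z) ∈ _ ∧
      ((x + e - y' * z') - P α (x + e - y' * z')) - ((x - y * z) - P α (x - y * z)) ∈ _
    have h5 : P α (x + e - y' * z') - P α (x - y * z) ∈ D.F (i + 1) := by
      rw [← map_sub]; exact D.P_mem h4
    refine ⟨h5, ?_⟩
    have h6 : ((x + e - y' * z') - P α (x + e - y' * z')) - ((x - y * z) - P α (x - y * z)) =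
        ((x + e - y' * z') - (x - y * z)) - (P α (x + e - y' * z') - P α (x - y * z)) := by abel
    rw [h6]
    exact Submodule.sub_mem _ h4 h5

theorem YZ_cong' {x e : 𝒜} (hx : x ∈ D.F 1) {i : ℕ} (he : e ∈ D.F (i + 1)) (n : ℕ) :
    (D.YZ (x + e) (n + 1)).1 - (D.YZ x (n + 1)).1 - P α e ∈ D.F (i + 2) := by
  have hxe : x + e ∈ D.F 1 := Submodule.add_mem _ hx (D.le (by omega) he)
  have ih := D.YZ_cong hx he n
  obtain ⟨a1, a2⟩ := D.YZ_mem hx n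
  obtain ⟨b1, b2⟩ := D.YZ_mem hxe n
  rw [YZ_succ, YZ_succ]
  set y := (D.YZ x n).1
  set z := (D.YZ x n).2
  set y' := (D.YZ (x + e) n).1
  set z' := (D.YZ (x + e) n).2
  have h1 : y' * z' - y * z ∈ D.F (i + 2) := by
    have h2 : y' * z' - y * z = (y' - y) * z' + y * (z' - z) := by noncomm_ring
    rw [h2]
    refine Submodule.add_mem _ (D.le (by omega) (D.mul ih.1 b2.1))
      (D.le (by omega) (D.mul a1.1 ih.2))
  show P α (x + e - y' * z') - P α (x - y * z) - P α e ∈ _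
  have h3 : P α (x + e - y' * z') - P α (x - y * z) - P α e = -P α (y' * z' - y * z) := by
    rw [← map_sub, ← map_sub, ← map_neg]
    congr 1
    abel
  rw [h3]
  exact Submodule.neg_mem _ (D.P_mem h1)

theorem YZ_diff {x : 𝒜} (hx : x ∈ D.F 1) (n : ℕ) :
    (D.YZ x (n + 1)).1 - (D.YZ x n).1 ∈ D.F (n + 1) ∧
      (D.YZ x (n + 1)).2 - (D.YZ x n).2 ∈ D.F (n + 1) := by
  induction n with
  | zero =>
    have h := D.YZ_mem hx 1
    refine ⟨?_, ?_⟩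
    · show (D.YZ x 1).1 - 0 ∈ _
      rw [sub_zero]; exact h.1.1
    · show (D.YZ x 1).2 - 0 ∈ _
      rw [sub_zero]; exact h.2.1
  | succ n ih =>
    obtain ⟨a1, a2⟩ := D.YZ_mem hx n
    obtain ⟨b1, b2⟩ := D.YZ_mem hx (n + 1)
    rw [D.YZ_succ x (n + 1)]
    have e0 := D.YZ_succ x n
    set y := (D.YZ x n).1
    set z := (D.YZ x n).2
    set y' := (D.YZ x (n + 1)).1
    set z' := (D.YZ x (n + 1)).2
    have e1 : y' = P α (x - y * z) := congrArg Prod.fst e0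
    have e2 : z' = (x - y * z) - P α (x - y * z) := congrArg Prod.snd e0
    have h1 : y' * z' - y * z ∈ D.F (n + 2) := by
      have h2 : y' * z' - y * z = (y' - y) * z' + y * (z' - z) := by noncomm_ring
      rw [h2]
      refine Submodule.add_mem _ (D.le (by omega) (D.mul ih.1 b2.1))
        (D.le (by omega) (D.mul a1.1 ih.2))
    show P α (x - y' * z') - y' ∈ _ ∧ ((x - y' * z') - P α (x - y' * z')) - z' ∈ _
    have h3 : P α (x - y' * z') - y' = -P α (y' * z' - y * z) := by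
      conv_lhs => rw [e1]
      rw [← map_sub, ← map_neg, ← e1]
      congr 1
      abel
    have h4 : ((x - y' * z') - P α (x - y' * z')) - z' =
        P α (y' * z' - y * z) - (y' * z' - y * z) := by
      have h5 : P α (x - y' * z') = y' - P α (y' * z' - y * z) := by
        rw [sub_eq_iff_eq_add] at h3
        rw [h3]; abel
      have h6 : z' = (x - y * z) - y' := by rw [e2, e1]
      conv_lhs => rw [h5]
      conv_lhs => rw [show (x - y' * z' - (y' - P α (y' * z' - y * z)) - z' : 𝒜) =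
        x - y' * z' - y' + P α (y' * z' - y * z) - z' by abel]
      have h7 : x - y * z - y' - z' = 0 := by rw [← h6, sub_self]
      calc x - y' * z' - y' + P α (y' * z' - y * z) - z'
          = (x - y * z - y' - z') + (P α (y' * z' - y * z) - (y' * z' - y * z)) := by abel
        _ = _ := by rw [h7, zero_add]
    rw [h3, h4]
    exact ⟨Submodule.neg_mem _ (D.P_mem h1), Submodule.sub_mem _ (D.P_mem h1) h1⟩

/-- the expanding factor -/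
def yu (x : 𝒜) : 𝒜 := (D.YZ x (D.d + 1)).1
/-- the non-expanding factor -/
def zc (x : 𝒜) : 𝒜 := (D.YZ x (D.d + 1)).2

theorem yu_mem {x : 𝒜} (hx : x ∈ D.F 1) : D.yu x ∈ D.Fu := (D.YZ_mem hx _).1
theorem zc_mem {x : 𝒜} (hx : x ∈ D.F 1) : D.zc x ∈ D.Fc := (D.YZ_mem hx _).2

theorem yu_cong {x e : 𝒜} (hx : x ∈ D.F 1) {i : ℕ} (he : e ∈ D.F (i + 1)) :
    D.yu (x + e) - D.yu x - P α e ∈ D.F (i + 2) := D.YZ_cong' hx he _

theorem fac_val {x : 𝒜} (hx : x ∈ D.F 1) : (1 + D.yu x) * (1 + D.zc x) = 1 + x := by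
  have h1 := D.YZ_diff hx (D.d + 1)
  have h2 := D.eq_zero (by omega) h1.1
  have h3 := D.eq_zero (by omega) h1.2
  rw [D.YZ_succ x (D.d + 1)] at h2 h3
  have h2' : P α (x - D.yu x * D.zc x) - D.yu x = 0 := h2
  have h3' : (x - D.yu x * D.zc x) - P α (x - D.yu x * D.zc x) - D.zc x = 0 := h3
  have h4 : x - D.yu x * D.zc x - D.yu x - D.zc x = 0 := by
    rw [sub_eq_zero] at h2'
    rwa [h2'] at h3'
  calc (1 + D.yu x) * (1 + D.zc x) = 1 + x - (x - D.yu x * D.zc x - D.yu x - D.zc x) := by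
        noncomm_ring
    _ = 1 + x := by rw [h4, sub_zero]

theorem YZ_continuous (n : ℕ) : Continuous (fun x => D.YZ x n) := by
  induction n with
  | zero => exact continuous_const
  | succ n ih =>
    have hP : Continuous (P α) := LinearMap.continuous_of_finiteDimensional _
    have h1 : Continuous (fun x => x - (D.YZ x n).1 * (D.YZ x n).2) := by fun_prop
    exact (hP.comp h1).prodMk (h1.sub (hP.comp h1))

theorem yu_continuous : Continuous D.yu := (D.YZ_continuous _).fst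

theorem exists_unit {x : 𝒜} (hx : x ∈ D.F 1) : ∃ u : 𝒜ˣ, (u : 𝒜) = 1 + x := by
  have h1 : IsNilpotent x := by
    refine ⟨D.d + 1, ?_⟩
    have h2 : ∀ n : ℕ, x ^ (n + 1) ∈ D.F (n + 1) := by
      intro n
      induction n with
      | zero => simpa using hx
      | succ n ih =>
        rw [pow_succ]
        exact D.mul ih hx
    exact D.eq_zero (by omega) (h2 _)
  obtain ⟨u, hu⟩ := h1.isUnit_one_add
  exact ⟨u, hu⟩

theorem fac {u : 𝒜ˣ} (hu : u ∈ D.U) : ∃ k ∈ D.Uu, k⁻¹ * u ∈ D.Uc ∧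
    (k : 𝒜) = 1 + D.yu ((u : 𝒜) - 1) := by
  have hx : (u : 𝒜) - 1 ∈ D.F 1 := hu
  obtain ⟨k, hk⟩ := D.exists_unit (D.yu_mem hx).1
  obtain ⟨c, hc⟩ := D.exists_unit (D.zc_mem hx).1
  have h1 : u = k * c := by
    apply Units.ext
    rw [Units.val_mul, hk, hc, D.fac_val hx]
    abel
  refine ⟨k, ?_, ?_, hk⟩
  · show (k : 𝒜) - 1 ∈ D.Fu
    rw [hk, add_sub_cancel_left]
    exact D.yu_mem hx
  · rw [h1, inv_mul_cancel_left]
    show (c : 𝒜) - 1 ∈ D.Fc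
    rw [hc, add_sub_cancel_left]
    exact D.zc_mem hx

open Classical in
/-- the expanding factor -/
def ku (u : 𝒜ˣ) : 𝒜ˣ := if h : u ∈ D.U then (D.fac h).choose else 1

theorem ku_mem (u : 𝒜ˣ) : D.ku u ∈ D.Uu := by
  unfold ku
  split_ifs with h
  · exact (D.fac h).choose_spec.1
  · exact D.Uu.one_mem

theorem ku_c {u : 𝒜ˣ} (hu : u ∈ D.U) : (D.ku u)⁻¹ * u ∈ D.Uc := by
  unfold ku
  rw [dif_pos hu]
  exact (D.fac hu).choose_spec.2.1

theorem ku_val {u : 𝒜ˣ} (hu : u ∈ D.U) : (D.ku u : 𝒜) = 1 + D.yu ((u : 𝒜) - 1) := by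
  unfold ku
  rw [dif_pos hu]
  exact (D.fac hu).choose_spec.2.2

theorem ku_eq {k c : 𝒜ˣ} (hk : k ∈ D.Uu) (hc : c ∈ D.Uc) : D.ku (k * c) = k := by
  have hu : k * c ∈ D.U := D.U.mul_mem (D.Uu_le hk) (D.Uc_le hc)
  have h1 := D.ku_c hu
  have h2 := D.ku_mem (k * c)
  have h3 : (D.ku (k * c))⁻¹ * k ∈ D.Uc := by
    have := D.Uc.mul_mem h1 (D.Uc.inv_mem hc)
    rwa [mul_assoc, mul_inv_cancel_right] at this
  have h4 := D.Uu_Uc (D.Uu.mul_mem (D.Uu.inv_mem h2) hk) h3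
  rw [inv_mul_eq_one] at h4
  exact h4

theorem ku_self {k : 𝒜ˣ} (hk : k ∈ D.Uu) : D.ku k = k := by
  have := D.ku_eq hk D.Uc.one_mem
  rwa [mul_one] at this

theorem ku_mul_c {u c : 𝒜ˣ} (hu : u ∈ D.U) (hc : c ∈ D.Uc) : D.ku (u * c) = D.ku u := by
  have h1 : u * c = D.ku u * ((D.ku u)⁻¹ * u * c) := by
    rw [mul_assoc, mul_inv_cancel_left]
  rw [h1]
  exact D.ku_eq (D.ku_mem u) (D.Uc.mul_mem (D.ku_c hu) hc)

theorem ku_eq_one {u : 𝒜ˣ} (hu : u ∈ D.U) (h : D.ku u = 1) : u ∈ D.Uc := by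
  have := D.ku_c hu
  rwa [h, inv_one, one_mul] at this

end FA

end

end Pool.Agent.N234.NL
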