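import Mathlib

set_option autoImplicit false

open Filter Topology Set unitInterval

namespace Pool.Agent.N234.NL

/-- A cocycle near the diagonal of `M × M` with values in the subset `U` of the units of the algebra
`𝒜`, invariant under `f` up to the conjugation with `T` and a twist `b`. -/
structure LocalCocycle {M : Type*} [TopologicalSpace M] (f : M ≃ₜ M) {𝒜 : Type*} [NormedRing 𝒜]
    (U : Set 𝒜ˣ) (T : 𝒜ˣ) where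
  δ : M → M → 𝒜ˣ
  b : M → 𝒜ˣ
  /-- a neighbourhood of the diagonal -/
  𝒱 : Set (M × M)
  mem_nhds : 𝒱 ∈ 𝓝ˢ (diagonal M)
  δ_mem : ∀ x y, (x, y) ∈ 𝒱 → δ x y ∈ U
  b_mem : ∀ x, b x ∈ U
  cocycle : ∀ x y z, (x, y) ∈ 𝒱 → (y, z) ∈ 𝒱 → (x, z) ∈ 𝒱 → δ x z = δ x y * δ y z
  /-- `δ` tends to `1` at the diagonal -/
  small : ∀ O ∈ 𝓝 (1 : 𝒜ˣ), {q : M × M | δ q.1 q.2 ∈ O} ∈ 𝓝ˢ (diagonal M)
  map_f : ∀ x y, (x, y) ∈ 𝒱 → (f x, f y) ∈ 𝒱 → b x * δ (f x) (f y) = T * δ x y * T⁻¹ * b y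

/-- `θ` is a lift of the path `γ` -/
def IsLift {M : Type*} [TopologicalSpace M] {f : M ≃ₜ M} {𝒜 : Type*} [NormedRing 𝒜]
    {U : Set 𝒜ˣ} {T : 𝒜ˣ} (C : LocalCocycle f U T) (γ : C(I, M)) (θ : C(I, 𝒜ˣ)) : Prop :=
  ∀ t, ∀ᶠ s in 𝓝 t, θ s = θ t * C.δ (γ t) (γ s)

/-- `γ` is a path in an unstable leaf: the backward iterates of the path shrink to points, i.e. for
every neighbourhood `𝒰` of the diagonal of `M × M` the points `f⁻ⁿ(γ 0)` and `f⁻ⁿ(γ t)` are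
`𝒰`-close for all large `n`, uniformly in `t`. -/
def UnstablePath {M : Type*} [TopologicalSpace M] (f : M ≃ₜ M) (γ : C(I, M)) : Prop :=
  ∀ 𝒰 ∈ 𝓝ˢ (diagonal M), ∀ᶠ n in atTop, ∀ t, (f.symm^[n] (γ 0), f.symm^[n] (γ t)) ∈ 𝒰

/-- The unstable leaves are polynomially properly displaced by the cocycle: for every
neighbourhood `𝒰` of the diagonal there are constants `a`, `b` such that, if `γ` is a path in an
unstable leaf and `θ` is a lift of `γ`, then `f⁻ⁿ(γ 0)` and `f⁻ⁿ(γ 1)` are `𝒰`-close for all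
`n ≥ a log (1 + ‖(θ 0)⁻¹ θ 1‖) + b`. -/
def PolyDisplaced {M : Type*} [TopologicalSpace M] {f : M ≃ₜ M} {𝒜 : Type*} [NormedRing 𝒜]
    {U : Set 𝒜ˣ} {T : 𝒜ˣ} (C : LocalCocycle f U T) : Prop :=
  ∀ 𝒰 ∈ 𝓝ˢ (diagonal M), ∃ a b : ℝ, ∀ (γ : C(I, M)) (θ : C(I, 𝒜ˣ)), UnstablePath f γ →
    IsLift C γ θ → ∀ n : ℕ, a * Real.log (1 + ‖(((θ 0)⁻¹ * θ 1 : 𝒜ˣ) : 𝒜)‖) + b ≤ n →
      (f.symm^[n] (γ 0), f.symm^[n] (γ 1)) ∈ 𝒰

/-- The operators which are unipotent with respect to the subspaces `V 0 ⊆ V 1 ⊆ ⋯`: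
`(u - 1) (V (j + 1)) ⊆ V j`. -/
def Unip {W : Type*} [NormedAddCommGroup W] [NormedSpace ℂ W] (V : ℕ → Submodule ℂ W) :
    Set (W →L[ℂ] W)ˣ :=
  {u | ∀ j, ∀ w ∈ V (j + 1), (u : W →L[ℂ] W) w - w ∈ V j}

end Pool.Agent.N234.NL
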