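import Pool.Agent.N234.NL.Str

set_option autoImplicit false
set_option linter.unusedSectionVars false

open Filter Topology Set Module

namespace Pool.Agent.N234.NL

open Pool.Agent.W740.TC
open Pool.Agent.N234.TG (TransStr iterB Expanding InjUnstable)

noncomputable section

variable {𝒜 : Type*} [NormedRing 𝒜] [NormedAlgebra ℂ 𝒜] [FiniteDimensional ℂ 𝒜]
  {T : 𝒜ˣ} {D : FA (cj T)} {M : Type*} [TopologicalSpace M] [CompactSpace M]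
  {f : M ≃ₜ M} (C : LocalCocycle f (D.U : Set 𝒜ˣ) T)

theorem FA.conjn_Uc (D : FA (cj T)) {u : 𝒜ˣ} (hu : u ∈ D.Uc) (n : ℕ) :
    T ^ n * u * (T ^ n)⁻¹ ∈ D.Uc := by
  have := FA.zconj (fun _ => D.conj_Uc) (fun _ => D.conj_Uc') (n : ℤ) u hu
  rwa [zpow_natCast] at this

theorem FA.conjn_Uu (D : FA (cj T)) {u : 𝒜ˣ} (hu : u ∈ D.Uu) (n : ℕ) :
    T ^ n * u * (T ^ n)⁻¹ ∈ D.Uu := by
  induction n with
  | zero => simpa using hu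
  | succ n ih =>
    have h1 : T ^ (n + 1) * u * (T ^ (n + 1))⁻¹ = T * (T ^ n * u * (T ^ n)⁻¹) * T⁻¹ := by
      rw [pow_succ', mul_inv_rev]
      simp only [mul_assoc]
    rw [h1]
    exact D.conj_Uu ih

theorem SE.nmul {Z : Type*} {a b : ℕ → Z → 𝒜} (ha : SE fun n z => ‖a n z‖)
    (hb : SE fun n z => ‖b n z‖) : SE fun n z => ‖a n z * b n z‖ :=
  (ha.mul hb (fun _ _ => norm_nonneg _) (fun _ _ => norm_nonneg _)).mono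
    fun _ _ => norm_mul_le _ _

theorem SE.nsub_one {Z : Type*} {a : ℕ → Z → 𝒜} (ha : SE fun n z => ‖a n z‖) :
    SE fun n z => ‖a n z - 1‖ :=
  (ha.add (SE.of_bdd (R := ‖(1 : 𝒜)‖) (s := fun _ _ => ‖(1 : 𝒜)‖) fun _ _ => le_rfl)).mono
    fun _ _ => norm_sub_le _ _

namespace LocalCocycle

/-- the key identity -/
theorem key_id (n : ℕ) (x : M) (v : D.Uu) :
    T ^ n * D.ku ((C.p x : 𝒜ˣ)⁻¹ * v) * (T ^ n)⁻¹ =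
      D.ku ((C.En n x)⁻¹ * (C.p (f^[n] x) : 𝒜ˣ)⁻¹ * (iterB f C.Bm n x • v : D.Uu)) := by
  set k := D.ku ((C.p x : 𝒜ˣ)⁻¹ * v) with hk
  have hU : (C.p x : 𝒜ˣ)⁻¹ * v ∈ D.U :=
    D.U.mul_mem (D.U.inv_mem (D.Uu_le (C.p x).2)) (D.Uu_le v.2)
  have hc := D.ku_c hU
  rw [← hk] at hc
  set u := (iterB f C.Bm n x • v : D.Uu) with hu
  have h1 : (u : 𝒜ˣ) = D.ku (C.Gn n x * v * (T ^ n)⁻¹) := C.iterB_smul n x v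
  have h2 := D.arg_mem (iterB f C.Bm n x) v
  rw [C.iterB_snd, FA.tau_apply] at h2
  have h3 : (iterB f C.Bm n x).1.1 * (v : 𝒜ˣ) *
      (T ^ (Multiplicative.toAdd (Multiplicative.ofAdd (n : ℤ))))⁻¹ =
      C.Gn n x * v * (T ^ n)⁻¹ := by
    show C.Gn n x * (v : 𝒜ˣ) * (T ^ (n : ℤ))⁻¹ = _
    rw [zpow_natCast]
  rw [h3] at h2
  have hc' := D.ku_c h2
  rw [← h1] at hc'
  set c := k⁻¹ * ((C.p x : 𝒜ˣ)⁻¹ * v) with hcd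
  set c' := (u : 𝒜ˣ)⁻¹ * (C.Gn n x * v * (T ^ n)⁻¹) with hcd'
  have h4 : (C.En n x)⁻¹ * (C.p (f^[n] x) : 𝒜ˣ)⁻¹ * (u : 𝒜ˣ) =
      (T ^ n * k * (T ^ n)⁻¹) * ((T ^ n * c * (T ^ n)⁻¹) * c'⁻¹) := by
    rw [hcd, hcd']
    unfold En
    simp only [mul_inv_rev, inv_inv, mul_assoc, inv_mul_cancel_left, mul_inv_cancel_left,
      mul_inv_cancel, mul_one]
  rw [h4, D.ku_eq]
  · exact D.conjn_Uu (D.ku_mem _) n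
  · exact D.Uc.mul_mem (D.conjn_Uc hc n) (D.Uc.inv_mem hc')

theorem ku_lower (n : ℕ) {k : 𝒜ˣ} (hk : k ∈ D.Uu) {C₀ l : ℝ}
    (h : ∀ (n : ℕ), ∀ x ∈ Au (cj T), ‖((cj T).toLinearEquiv.symm)^[n] x‖ ≤ C₀ * l ^ n * ‖x‖) :
    ‖(k : 𝒜) - 1‖ ≤ C₀ * l ^ n * ‖((T ^ n * k * (T ^ n)⁻¹ : 𝒜ˣ) : 𝒜) - 1‖ := by
  have h1 : ((T ^ n * k * (T ^ n)⁻¹ : 𝒜ˣ) : 𝒜) - 1 = (cj T).toLinearEquiv^[n] ((k : 𝒜) - 1) := by
    have h2 : (cj T).toLinearEquiv^[n] ((k : 𝒜) - 1) = (cj T)^[n] ((k : 𝒜) - 1) := rfl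
    rw [h2, cj_iter, mul_sub, sub_mul, mul_one, Units.mul_inv]
    rfl
  rw [h1]
  have h3 := h n _ (iter_mem (cj T).toLinearEquiv _ (Wu_map _) n _ hk.2)
  rwa [symm_iter_iter] at h3

theorem expanding {𝒱₀ : Set (M × M)} (h𝒱₀ : 𝒱₀ ∈ 𝓝ˢ (diagonal M)) :
    Expanding (C.str h𝒱₀) := by
  intro K hK hKd L hL
  -- lower bound
  have hcont : Continuous (fun q : D.Uu × D.Uu =>
      ‖(D.ku ((q.1 : 𝒜ˣ)⁻¹ * (q.2 : 𝒜ˣ)) : 𝒜) - 1‖) := by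
    refine (Continuous.sub ?_ continuous_const).norm
    rw [← FA.continuous_units]
    apply D.continuous_ku
    · fun_prop
    · exact fun q => D.U.mul_mem (D.U.inv_mem (D.Uu_le q.1.2)) (D.Uu_le q.2.2)
  obtain ⟨c, hc, hcK⟩ := hK.exists_forall_le' hcont.continuousOn (a := 0) (fun q hq => by
    rw [norm_pos_iff, sub_ne_zero]
    intro h0
    have h1 : D.ku ((q.1 : 𝒜ˣ)⁻¹ * (q.2 : 𝒜ˣ)) = 1 := Units.ext h0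
    have h2 := D.ku_eq_one (D.U.mul_mem (D.U.inv_mem (D.Uu_le q.1.2)) (D.Uu_le q.2.2)) h1
    have h3 := D.Uu_Uc (D.Uu.mul_mem (D.Uu.inv_mem q.1.2) q.2.2) h2
    rw [inv_mul_eq_one] at h3
    exact (disjoint_left.mp hKd) hq (Subtype.ext h3))
  -- upper bounds
  obtain ⟨RL, hRL⟩ : ∃ R : ℝ, ∀ u ∈ L, ‖((u : 𝒜ˣ) : 𝒜)‖ ≤ R := by
    have hc1 : Continuous (fun u : D.Uu => ((u : 𝒜ˣ) : 𝒜)) :=
      Units.continuous_val.comp continuous_subtype_val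
    obtain ⟨R, hR⟩ := (hL.image hc1).isBounded.exists_norm_le
    exact ⟨R, fun u hu => hR _ ⟨u, hu, rfl⟩⟩
  obtain ⟨Rp, hRp0, hRp⟩ := C.p_bdd
  obtain ⟨C₀, l, hC₀, hl0, hl1, h0⟩ := Wu_unif (cj T).toLinearEquiv
  have hSE : SE (fun (n : ℕ) (z : M × L) => ‖D.yu (((((C.En n z.1)⁻¹ *
      (C.p (f^[n] z.1) : 𝒜ˣ)⁻¹ * ((z.2 : D.Uu) : 𝒜ˣ) : 𝒜ˣ)) : 𝒜) - 1)‖) := by
    refine D.yu_PB.se (SE.nsub_one ?_)
    have h1 : SE (fun (n : ℕ) (z : M × L) => ‖(((C.En n z.1)⁻¹ : 𝒜ˣ) : 𝒜)‖) :=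
      C.En_inv_growth.reindex (fun _ (z : M × L) => z.1)
    have h2 : SE (fun (n : ℕ) (z : M × L) => ‖(((C.p (f^[n] z.1) : 𝒜ˣ)⁻¹ : 𝒜ˣ) : 𝒜)‖) :=
      SE.of_bdd (R := Rp) fun n z => (hRp _).2
    have h3 : SE (fun (n : ℕ) (z : M × L) => ‖(((z.2 : D.Uu) : 𝒜ˣ) : 𝒜)‖) :=
      SE.of_bdd (R := RL) fun n z => hRL _ z.2.2
    exact ((h1.nmul h2).nmul h3).mono fun n z => by rw [Units.val_mul, Units.val_mul]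
  obtain ⟨δ, hδ, hδ2⟩ := exists_delta hl1
  obtain ⟨C₁, hC₁, h1⟩ := hSE δ hδ
  have h5 : Tendsto (fun n : ℕ => C₀ * C₁ * ((1 + δ) * l) ^ n) atTop (𝓝 0) := by
    have := (tendsto_pow_atTop_nhds_zero_of_lt_one (by positivity) hδ2).const_mul (C₀ * C₁)
    simpa using this
  obtain ⟨n₀, hn₀⟩ := eventually_atTop.mp ((tendsto_order.mp h5).2 c hc)
  refine ⟨n₀, fun n hn x v hv hin => ?_⟩
  have hv' : (C.p x, v) ∈ K := hv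
  have hin' : (iterB f C.Bm n x • v : D.Uu) ∈ L := hin
  have h2 := hcK _ hv'
  have h3 := ku_lower n (D.ku_mem ((C.p x : 𝒜ˣ)⁻¹ * v)) h0
  rw [C.key_id n x v] at h3
  have hU : (C.En n x)⁻¹ * (C.p (f^[n] x) : 𝒜ˣ)⁻¹ * ((iterB f C.Bm n x • v : D.Uu) : 𝒜ˣ) ∈ D.U :=
    D.U.mul_mem (D.U.mul_mem (D.U.inv_mem (D.Uc_le (C.En_mem n x)))
      (D.U.inv_mem (D.Uu_le (C.p _).2))) (D.Uu_le (iterB f C.Bm n x • v : D.Uu).2)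
  rw [D.ku_val hU, add_sub_cancel_left] at h3
  have h4 := h1 n (x, ⟨_, hin'⟩)
  have h6 := hn₀ n hn
  have h7 : C₀ * l ^ n * (C₁ * (1 + δ) ^ n) = C₀ * C₁ * ((1 + δ) * l) ^ n := by
    rw [mul_pow]; ring
  have h8 := mul_le_mul_of_nonneg_left h4 (show 0 ≤ C₀ * l ^ n by positivity)
  rw [h7] at h8
  have h9 : c ≤ ‖(D.ku ((C.p x : 𝒜ˣ)⁻¹ * (v : 𝒜ˣ)) : 𝒜) - 1‖ := h2
  linarith [h9, h3, h8, h6]

/-- the displacement of the images -/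
theorem disp_id {x y : M} {c : 𝒜ˣ} (h : C.δ x y * C.p y = C.p x * c) (m : ℕ) :
    C.Gn m x * C.δ x y * (C.Gn m y)⁻¹ =
      C.p (f^[m] x) * C.En m x * (T ^ m * c * (T ^ m)⁻¹) * (C.En m y)⁻¹ *
        (C.p (f^[m] y) : 𝒜ˣ)⁻¹ := by
  have h1 : C.δ x y = C.p x * c * (C.p y : 𝒜ˣ)⁻¹ := by
    rw [← h, mul_inv_cancel_right]
  rw [h1]
  unfold En
  simp only [mul_inv_rev, inv_inv, mul_assoc, inv_mul_cancel_left, mul_inv_cancel_left,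
    mul_inv_cancel, mul_one]

theorem disp_growth {x y : M} (hU : C.δ x y ∈ D.U) (h : C.pim x y • C.p y = C.p x) :
    SE (fun m (_ : Unit) => ‖((C.Gn m x * C.δ x y * (C.Gn m y)⁻¹ : 𝒜ˣ) : 𝒜)‖) := by
  have h1 := congrArg Subtype.val h
  rw [C.pim_smul hU] at h1
  have hU' : C.δ x y * (C.p y : 𝒜ˣ) ∈ D.U := D.U.mul_mem hU (D.Uu_le (C.p y).2)
  have hc := D.ku_c hU'
  rw [h1] at hc
  set c := (C.p x : 𝒜ˣ)⁻¹ * (C.δ x y * (C.p y : 𝒜ˣ)) with hcd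
  have h2 : C.δ x y * C.p y = C.p x * c := by rw [hcd, mul_inv_cancel_left]
  obtain ⟨Rp, hRp0, hRp⟩ := C.p_bdd
  have s1 : SE (fun (m : ℕ) (_ : Unit) => ‖(((C.p (f^[m] x) : 𝒜ˣ)) : 𝒜)‖) :=
    SE.of_bdd (R := Rp) fun n z => (hRp _).1
  have s2 : SE (fun (m : ℕ) (_ : Unit) => ‖((C.En m x : 𝒜ˣ) : 𝒜)‖) :=
    C.En_growth.reindex (fun _ _ => x)
  have s3 : SE (fun (m : ℕ) (_ : Unit) => ‖((T ^ m * c * (T ^ m)⁻¹ : 𝒜ˣ) : 𝒜)‖) := by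
    have e1 : ∀ m : ℕ, ((T ^ m * c * (T ^ m)⁻¹ : 𝒜ˣ) : 𝒜) = 1 + (cj T)^[m] ((c : 𝒜) - 1) := by
      intro m
      rw [cj_iter, mul_sub, sub_mul, mul_one, Units.mul_inv, Units.val_mul, Units.val_mul]
      abel
    intro δ hδ
    obtain ⟨C₂, hC₂, h3⟩ := Wc_unif (cj T).toLinearEquiv δ hδ
    refine ⟨‖(1 : 𝒜)‖ + C₂ * ‖(c : 𝒜) - 1‖, by positivity, fun m _ => ?_⟩
    show ‖((T ^ m * c * (T ^ m)⁻¹ : 𝒜ˣ) : 𝒜)‖ ≤ _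
    rw [e1]
    have h4 := h3 m _ hc.2
    have h5 : (1 : ℝ) ≤ (1 + δ) ^ m := one_le_pow₀ (by linarith)
    have h6 : ‖(cj T)^[m] ((c : 𝒜) - 1)‖ ≤ C₂ * (1 + δ) ^ m * ‖(c : 𝒜) - 1‖ := h4
    have h7 := mul_le_mul_of_nonneg_left h5 (norm_nonneg (1 : 𝒜))
    calc ‖1 + (cj T)^[m] ((c : 𝒜) - 1)‖ ≤ ‖(1 : 𝒜)‖ + ‖(cj T)^[m] ((c : 𝒜) - 1)‖ :=
          norm_add_le _ _
      _ ≤ ‖(1 : 𝒜)‖ * (1 + δ) ^ m + C₂ * (1 + δ) ^ m * ‖(c : 𝒜) - 1‖ := by linarith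
      _ = _ := by ring
  have s4 : SE (fun (m : ℕ) (_ : Unit) => ‖(((C.En m y)⁻¹ : 𝒜ˣ) : 𝒜)‖) :=
    C.En_inv_growth.reindex (fun _ _ => y)
  have s5 : SE (fun (m : ℕ) (_ : Unit) => ‖(((C.p (f^[m] y) : 𝒜ˣ)⁻¹ : 𝒜ˣ) : 𝒜)‖) :=
    SE.of_bdd (R := Rp) fun n z => (hRp _).2
  refine ((((s1.nmul s2).nmul s3).nmul s4).nmul s5).mono fun m _ => ?_
  rw [C.disp_id h2 m]
  simp only [Units.val_mul]
  exact le_rfl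

end LocalCocycle

end

end Pool.Agent.N234.NL
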