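import Pool.Agent.N234.NL.Sec

set_option autoImplicit false
set_option linter.unusedSectionVars false

open Filter Topology Set Module

namespace Pool.Agent.N234.NL

open Pool.Agent.W740.TC

noncomputable section

/-- uniformly subexponential families -/
def SE {Z : Type*} (s : ℕ → Z → ℝ) : Prop :=
  ∀ δ : ℝ, 0 < δ → ∃ C : ℝ, 0 ≤ C ∧ ∀ n z, s n z ≤ C * (1 + δ) ^ n

theorem exists_root (m : ℕ) {δ : ℝ} (hδ : 0 < δ) : ∃ ε : ℝ, 0 < ε ∧ (1 + ε) ^ m ≤ 1 + δ := by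
  have h1 : Tendsto (fun ε : ℝ => (1 + ε) ^ m) (𝓝 0) (𝓝 ((1 + 0) ^ m)) :=
    Continuous.tendsto (by fun_prop) 0
  rw [add_zero, one_pow] at h1
  have h2 : ∀ᶠ ε : ℝ in 𝓝[>] 0, (1 + ε) ^ m < 1 + δ :=
    ((tendsto_order.mp h1).2 (1 + δ) (by linarith)).filter_mono nhdsWithin_le_nhds
  obtain ⟨ε, h3, h4⟩ := (h2.and self_mem_nhdsWithin).exists
  exact ⟨ε, h4, h3.le⟩

section SE

variable {Z : Type*} {s t : ℕ → Z → ℝ}

theorem SE.mono (ht : SE t) (h : ∀ n z, s n z ≤ t n z) : SE s := by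
  intro δ hδ
  obtain ⟨C, hC, h1⟩ := ht δ hδ
  exact ⟨C, hC, fun n z => (h n z).trans (h1 n z)⟩

theorem SE.of_bdd {R : ℝ} (h : ∀ n z, s n z ≤ R) : SE s := by
  intro δ hδ
  refine ⟨|R|, abs_nonneg R, fun n z => (h n z).trans ((le_abs_self R).trans ?_)⟩
  exact le_mul_of_one_le_right (abs_nonneg R) (one_le_pow₀ (by linarith))

theorem SE.add (hs : SE s) (ht : SE t) : SE (fun n z => s n z + t n z) := by
  intro δ hδ
  obtain ⟨C, hC, h1⟩ := hs δ hδ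
  obtain ⟨C', hC', h2⟩ := ht δ hδ
  refine ⟨C + C', add_nonneg hC hC', fun n z => ?_⟩
  rw [add_mul]
  exact add_le_add (h1 n z) (h2 n z)

theorem SE.mul (hs : SE s) (ht : SE t) (hs0 : ∀ n z, 0 ≤ s n z) (ht0 : ∀ n z, 0 ≤ t n z) :
    SE (fun n z => s n z * t n z) := by
  intro δ hδ
  obtain ⟨ε, hε, h0⟩ := exists_root 2 hδ
  obtain ⟨C, hC, h1⟩ := hs ε hε
  obtain ⟨C', hC', h2⟩ := ht ε hε
  refine ⟨C * C', mul_nonneg hC hC', fun n z => ?_⟩
  have h3 : (1 + ε) ^ n * (1 + ε) ^ n ≤ (1 + δ) ^ n := by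
    rw [← pow_add, ← two_mul, pow_mul]
    exact pow_le_pow_left₀ (by positivity) h0 n
  calc s n z * t n z ≤ (C * (1 + ε) ^ n) * (C' * (1 + ε) ^ n) :=
        mul_le_mul (h1 n z) (h2 n z) (ht0 n z) ((hs0 n z).trans (h1 n z))
    _ = C * C' * ((1 + ε) ^ n * (1 + ε) ^ n) := by ring
    _ ≤ _ := by gcongr

theorem SE.pow (hs : SE s) (hs0 : ∀ n z, 0 ≤ s n z) (m : ℕ) : SE (fun n z => s n z ^ m) := by
  induction m with
  | zero => exact SE.of_bdd (R := 1) fun n z => by simp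
  | succ m ih =>
    have := ih.mul hs (fun n z => pow_nonneg (hs0 n z) m) hs0
    exact this.mono fun n z => by rw [pow_succ]

theorem SE.reindex (hs : SE s) {Z' : Type*} (g : ℕ → Z' → Z) : SE (fun n z => s n (g n z)) := by
  intro δ hδ
  obtain ⟨C, hC, h1⟩ := hs δ hδ
  exact ⟨C, hC, fun n z => h1 n _⟩

end SE

variable {𝒜 : Type*} [NormedRing 𝒜] [NormedAlgebra ℂ 𝒜] [FiniteDimensional ℂ 𝒜]

/-- polynomially bounded maps -/
def PB (φ : 𝒜 → 𝒜) : Prop := ∃ (C : ℝ) (N : ℕ), 0 ≤ C ∧ ∀ x, ‖φ x‖ ≤ C * (1 + ‖x‖) ^ N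

theorem PB.const (c : 𝒜) : PB (fun _ => c) := ⟨‖c‖, 0, norm_nonneg c, fun x => by simp⟩

theorem PB.id : PB (fun x : 𝒜 => x) := ⟨1, 1, zero_le_one, fun x => by simp⟩

theorem PB.sub {φ ψ : 𝒜 → 𝒜} (hφ : PB φ) (hψ : PB ψ) : PB (fun x => φ x - ψ x) := by
  obtain ⟨C, N, hC, h1⟩ := hφ
  obtain ⟨C', N', hC', h2⟩ := hψ
  refine ⟨C + C', N + N', add_nonneg hC hC', fun x => (norm_sub_le _ _).trans ?_⟩
  have h3 : (1 : ℝ) ≤ 1 + ‖x‖ := by linarith [norm_nonneg x]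
  have h4 : (1 + ‖x‖) ^ N ≤ (1 + ‖x‖) ^ (N + N') := pow_le_pow_right₀ h3 (by omega)
  have h5 : (1 + ‖x‖) ^ N' ≤ (1 + ‖x‖) ^ (N + N') := pow_le_pow_right₀ h3 (by omega)
  rw [add_mul]
  exact add_le_add ((h1 x).trans (mul_le_mul_of_nonneg_left h4 hC))
    ((h2 x).trans (mul_le_mul_of_nonneg_left h5 hC'))

theorem PB.neg {φ : 𝒜 → 𝒜} (hφ : PB φ) : PB (fun x => -φ x) := by
  obtain ⟨C, N, hC, h1⟩ := hφ
  exact ⟨C, N, hC, fun x => by rw [norm_neg]; exact h1 x⟩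

theorem PB.add {φ ψ : 𝒜 → 𝒜} (hφ : PB φ) (hψ : PB ψ) : PB (fun x => φ x + ψ x) := by
  have := hφ.sub hψ.neg
  simpa using this

theorem PB.mul {φ ψ : 𝒜 → 𝒜} (hφ : PB φ) (hψ : PB ψ) : PB (fun x => φ x * ψ x) := by
  obtain ⟨C, N, hC, h1⟩ := hφ
  obtain ⟨C', N', hC', h2⟩ := hψ
  refine ⟨C * C', N + N', mul_nonneg hC hC', fun x => (norm_mul_le _ _).trans ?_⟩
  calc ‖φ x‖ * ‖ψ x‖ ≤ (C * (1 + ‖x‖) ^ N) * (C' * (1 + ‖x‖) ^ N') :=
        mul_le_mul (h1 x) (h2 x) (norm_nonneg _) ((norm_nonneg _).trans (h1 x))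
    _ = _ := by rw [pow_add]; ring

theorem PB.lin {φ : 𝒜 → 𝒜} (hφ : PB φ) (L : 𝒜 →ₗ[ℂ] 𝒜) : PB (fun x => L (φ x)) := by
  obtain ⟨C, N, hC, h1⟩ := hφ
  let L' : 𝒜 →L[ℂ] 𝒜 := LinearMap.toContinuousLinearMap L
  refine ⟨‖L'‖ * C, N, mul_nonneg (norm_nonneg _) hC, fun x => ?_⟩
  rw [mul_assoc]
  exact (L'.le_opNorm _).trans (mul_le_mul_of_nonneg_left (h1 x) (norm_nonneg _))

theorem PB.pow {φ : 𝒜 → 𝒜} (hφ : PB φ) (m : ℕ) : PB (fun x => φ x ^ m) := by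
  induction m with
  | zero => simpa using PB.const (1 : 𝒜)
  | succ m ih => simpa [pow_succ] using ih.mul hφ

theorem PB.sum {φ : ℕ → 𝒜 → 𝒜} (hφ : ∀ i, PB (φ i)) (m : ℕ) :
    PB (fun x => ∑ i ∈ Finset.range m, φ i x) := by
  induction m with
  | zero => simpa using PB.const (0 : 𝒜)
  | succ m ih => simpa [Finset.sum_range_succ] using ih.add (hφ m)

theorem PB.se {φ : 𝒜 → 𝒜} (hφ : PB φ) {Z : Type*} {a : ℕ → Z → 𝒜}
    (ha : SE (fun n z => ‖a n z‖)) : SE (fun n z => ‖φ (a n z)‖) := by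
  obtain ⟨C, N, hC, h1⟩ := hφ
  have h2 : SE (fun n z => 1 + ‖a n z‖) :=
    (SE.of_bdd (R := 1) (s := fun _ _ => 1) fun _ _ => le_rfl).add ha
  have h3 := h2.pow (fun n z => by positivity) N
  have h4 := (SE.of_bdd (R := C) (s := fun _ (_ : Z) => C) fun _ _ => le_rfl).mul h3
    (fun _ _ => hC) (fun n z => by positivity)
  exact h4.mono fun n z => h1 _

namespace FA

section

variable {α : 𝒜 ≃ₐ[ℂ] 𝒜} (D : FA α)

theorem YZ_PB (n : ℕ) : PB (fun x => (D.YZ x n).1) ∧ PB (fun x => (D.YZ x n).2) := by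
  induction n with
  | zero => exact ⟨PB.const 0, PB.const 0⟩
  | succ n ih =>
    have h1 := PB.id.sub (ih.1.mul ih.2)
    exact ⟨h1.lin (P α), h1.sub (h1.lin (P α))⟩

theorem yu_PB : PB D.yu := (D.YZ_PB _).1

/-- the inverse as a polynomial -/
def ginv (x : 𝒜) : 𝒜 := ∑ i ∈ Finset.range (D.d + 1), (1 - x) ^ i

theorem ginv_PB : PB D.ginv := PB.sum (fun i => ((PB.const 1).sub PB.id).pow i) _

theorem pow_mem {x : 𝒜} (hx : x ∈ D.F 1) (n : ℕ) : x ^ (n + 1) ∈ D.F (n + 1) := by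
  induction n with
  | zero => simpa using hx
  | succ n ih =>
    rw [pow_succ]
    exact D.mul ih hx

theorem inv_val {u : 𝒜ˣ} (hu : u ∈ D.U) : ((u⁻¹ : 𝒜ˣ) : 𝒜) = D.ginv u := by
  have h1 : (1 - (u : 𝒜)) ∈ D.F 1 := by
    have : (1 : 𝒜) - u = -((u : 𝒜) - 1) := by abel
    rw [this]
    exact Submodule.neg_mem _ hu
  have h2 := D.eq_zero (by omega) (D.pow_mem h1 D.d)
  have h3 := geom_sum_mul_neg (1 - (u : 𝒜)) (D.d + 1)
  rw [sub_sub_cancel, h2, sub_zero] at h3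
  have h4 : D.ginv u * u = 1 := h3
  calc ((u⁻¹ : 𝒜ˣ) : 𝒜) = (D.ginv u * u) * ((u⁻¹ : 𝒜ˣ) : 𝒜) := by rw [h4, one_mul]
    _ = D.ginv u := by rw [mul_assoc, Units.mul_inv, mul_one]

/-- the homogeneous parts of a product -/
def ek {X : Type*} (_D : FA α) (f : X → X) (w : X → 𝒜) : ℕ → ℕ → X → 𝒜
  | 0, _, _ => 1
  | _ + 1, 0, _ => 0
  | k + 1, n + 1, x => ek _D f w (k + 1) n (f x) + ek _D f w k n (f x) * α^[n] (w x)

variable {X : Type*} (f : X → X) (w : X → 𝒜)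

theorem ek_zero (n : ℕ) (x : X) : D.ek f w 0 n x = 1 := by
  cases n <;> rfl

theorem ek_succ (k n : ℕ) (x : X) : D.ek f w (k + 1) (n + 1) x =
    D.ek f w (k + 1) n (f x) + D.ek f w k n (f x) * α^[n] (w x) := rfl

theorem map_iter {i : ℕ} {a : 𝒜} (ha : a ∈ D.F i) (n : ℕ) : α^[n] a ∈ D.F i :=
  iter_mem α.toLinearEquiv (D.F i) (fun _ hx => D.map hx) n a ha

theorem ek_mem (hw : ∀ x, w x ∈ D.F 1) (k n : ℕ) (x : X) :
    D.ek f w (k + 1) n x ∈ D.F (k + 1) := by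
  induction k generalizing n x with
  | zero =>
    induction n generalizing x with
    | zero => exact Submodule.zero_mem _
    | succ n ih =>
      rw [ek_succ, ek_zero, one_mul]
      exact Submodule.add_mem _ (ih _) (D.map_iter (hw x) n)
  | succ k ihk =>
    induction n generalizing x with
    | zero => exact Submodule.zero_mem _
    | succ n ih =>
      rw [ek_succ]
      exact Submodule.add_mem _ (ih _) (D.mul (ihk n _) (D.map_iter (hw x) n))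

theorem ek_sum (hw : ∀ x, w x ∈ D.F 1) {E : ℕ → X → 𝒜} (h0 : ∀ x, E 0 x = 1)
    (hE : ∀ n x, E (n + 1) x = E n (f x) * (1 + α^[n] (w x))) (n : ℕ) (x : X) :
    E n x = ∑ k ∈ Finset.range (D.d + 1), D.ek f w k n x := by
  induction n generalizing x with
  | zero =>
    rw [h0, Finset.sum_range_succ']
    have h1 : ∀ k ∈ Finset.range D.d, D.ek f w (k + 1) 0 x = 0 := fun k _ => rfl
    rw [Finset.sum_eq_zero h1, zero_add, ek_zero]
  | succ n ih =>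
    rw [hE, Finset.sum_range_succ']
    simp only [ek_succ, ek_zero]
    rw [Finset.sum_add_distrib, ← Finset.sum_mul]
    have h2 : D.ek f w D.d n (f x) * α^[n] (w x) = 0 := by
      rcases Nat.eq_zero_or_pos D.d with h | h
      · rw [D.eq_zero (by omega) (D.map_iter (hw x) n), mul_zero]
      · obtain ⟨j, hj⟩ := Nat.exists_eq_succ_of_ne_zero h.ne'
        have h3 := D.ek_mem f w hw j n (f x)
        have h4 := D.mul h3 (D.map_iter (hw x) n)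
        rw [hj]
        exact D.eq_zero (by omega) h4
    have h3 : E n (f x) = ∑ k ∈ Finset.range D.d, D.ek f w (k + 1) n (f x) + 1 := by
      rw [ih, Finset.sum_range_succ', ek_zero]
    have h5 : E n (f x) * α^[n] (w x) =
        (∑ k ∈ Finset.range D.d, D.ek f w k n (f x)) * α^[n] (w x) := by
      rw [ih, Finset.sum_range_succ, add_mul, h2, add_zero]
    rw [mul_add, mul_one, h5, h3]
    abel

theorem ek_norm {A : ℝ} (hA : 0 ≤ A) (n : ℕ) (hw : ∀ j < n, ∀ y, ‖α^[j] (w y)‖ ≤ A) (k : ℕ)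
    (x : X) : ‖D.ek f w k n x‖ ≤ ‖(1 : 𝒜)‖ * ((n : ℝ) * A) ^ k := by
  induction n generalizing k x with
  | zero =>
    cases k with
    | zero => rw [ek_zero, pow_zero, mul_one]
    | succ k =>
      have h1 : D.ek f w (k + 1) 0 x = 0 := rfl
      rw [h1, norm_zero]
      positivity
  | succ n ih =>
    cases k with
    | zero => rw [ek_zero, pow_zero, mul_one]
    | succ k =>
      rw [ek_succ]
      have h1 := ih (fun j hj => hw j (by omega)) (k + 1) (f x)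
      have h2 := ih (fun j hj => hw j (by omega)) k (f x)
      have h3 := hw n (by omega) x
      have h4 : ‖D.ek f w k n (f x) * α^[n] (w x)‖ ≤ ‖(1 : 𝒜)‖ * ((n : ℝ) * A) ^ k * A :=
        (norm_mul_le _ _).trans (mul_le_mul h2 h3 (norm_nonneg _) (by positivity))
      refine (norm_add_le _ _).trans ((add_le_add h1 h4).trans ?_)
      have h5 : ((n : ℝ) * A) ^ (k + 1) + ((n : ℝ) * A) ^ k * A ≤ (((n : ℝ) + 1) * A) ^ (k + 1) := by
        rw [pow_succ, pow_succ (((n : ℝ) + 1) * A)]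
        have h6 : ((n : ℝ) * A) ^ k ≤ (((n : ℝ) + 1) * A) ^ k := by
          apply pow_le_pow_left₀ (by positivity)
          nlinarith
        calc ((n : ℝ) * A) ^ k * ((n : ℝ) * A) + ((n : ℝ) * A) ^ k * A
            = ((n : ℝ) * A) ^ k * (((n : ℝ) + 1) * A) := by ring
          _ ≤ _ := by gcongr
      calc ‖(1 : 𝒜)‖ * ((n : ℝ) * A) ^ (k + 1) + ‖(1 : 𝒜)‖ * ((n : ℝ) * A) ^ k * A
          = ‖(1 : 𝒜)‖ * (((n : ℝ) * A) ^ (k + 1) + ((n : ℝ) * A) ^ k * A) := by ring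
        _ ≤ ‖(1 : 𝒜)‖ * ((((n + 1 : ℕ) : ℝ)) * A) ^ (k + 1) := by
            rw [Nat.cast_succ]
            gcongr

/-- the growth of a product -/
theorem prod_growth (hw : ∀ x, w x ∈ D.Fc) {R : ℝ} (hR : ∀ x, ‖w x‖ ≤ R) {E : ℕ → X → 𝒜}
    (h0 : ∀ x, E 0 x = 1) (hE : ∀ n x, E (n + 1) x = E n (f x) * (1 + α^[n] (w x))) :
    SE (fun n x => ‖E n x‖) := by
  intro δ hδ
  obtain ⟨ε, hε, hε2⟩ := exists_root (2 * D.d) hδ
  obtain ⟨C, hC, hCb⟩ := Wc_unif α.toLinearEquiv ε hε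
  set C' : ℝ := 1 + C * |R| / ε with hC'
  have hC'0 : 0 ≤ C' := by positivity
  refine ⟨(D.d + 1) * (‖(1 : 𝒜)‖ * C' ^ D.d), by positivity, fun n x => ?_⟩
  set A : ℝ := C * (1 + ε) ^ n * |R| with hA
  have hA0 : 0 ≤ A := by positivity
  have h1 : ∀ j < n, ∀ y, ‖α^[j] (w y)‖ ≤ A := by
    intro j hj y
    refine (hCb j _ (hw y).2).trans ?_
    have h2 : (1 + ε) ^ j ≤ (1 + ε) ^ n := pow_le_pow_right₀ (by linarith) hj.le
    have h3 : ‖w y‖ ≤ |R| := (hR y).trans (le_abs_self R)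
    rw [hA]
    gcongr
  have hn : (n : ℝ) ≤ (1 + ε) ^ n / ε := by
    rw [le_div_iff₀ hε]
    have := one_add_mul_le_pow (show (-2 : ℝ) ≤ ε by linarith) n
    linarith
  have h2 : 1 + (n : ℝ) * A ≤ C' * ((1 + ε) ^ 2) ^ n := by
    have h3 : (n : ℝ) * A ≤ (1 + ε) ^ n / ε * A := mul_le_mul_of_nonneg_right hn hA0
    have h4 : (1 + ε) ^ n / ε * A = C * |R| / ε * ((1 + ε) ^ 2) ^ n := by
      rw [hA, ← pow_mul, Nat.mul_comm, pow_mul]
      ring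
    have h5 : (1 : ℝ) ≤ ((1 + ε) ^ 2) ^ n := one_le_pow₀ (one_le_pow₀ (by linarith))
    rw [hC', add_mul, one_mul]
    linarith
  have h3 : ∀ k ∈ Finset.range (D.d + 1), ‖D.ek f w k n x‖ ≤
      ‖(1 : 𝒜)‖ * (C' * ((1 + ε) ^ 2) ^ n) ^ D.d := by
    intro k hk
    refine (D.ek_norm f w hA0 n h1 k x).trans ?_
    have h4 : ((n : ℝ) * A) ^ k ≤ (1 + (n : ℝ) * A) ^ D.d :=
      (pow_le_pow_left₀ (by positivity) (by linarith) k).trans
        (pow_le_pow_right₀ (by have : 0 ≤ (n : ℝ) * A := by positivity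
                               linarith) (by rw [Finset.mem_range] at hk; omega))
    have h5 : (1 + (n : ℝ) * A) ^ D.d ≤ (C' * ((1 + ε) ^ 2) ^ n) ^ D.d :=
      pow_le_pow_left₀ (by positivity) h2 _
    exact mul_le_mul_of_nonneg_left (h4.trans h5) (norm_nonneg _)
  show ‖E n x‖ ≤ _
  rw [D.ek_sum f w (fun x => (hw x).1) h0 hE n x]
  refine (norm_sum_le_of_le _ h3).trans ?_
  rw [Finset.sum_const, Finset.card_range, nsmul_eq_mul, Nat.cast_succ]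
  have h6 : (((1 + ε) ^ 2) ^ n) ^ D.d ≤ (1 + δ) ^ n := by
    have : (((1 + ε) ^ 2) ^ n) ^ D.d = ((1 + ε) ^ (2 * D.d)) ^ n := by
      rw [← pow_mul, ← pow_mul, ← pow_mul]
      congr 1
      ring
    rw [this]
    exact pow_le_pow_left₀ (by positivity) hε2 n
  rw [mul_pow]
  calc ((D.d : ℝ) + 1) * (‖(1 : 𝒜)‖ * (C' ^ D.d * (((1 + ε) ^ 2) ^ n) ^ D.d))
      = ((D.d : ℝ) + 1) * (‖(1 : 𝒜)‖ * C' ^ D.d) * (((1 + ε) ^ 2) ^ n) ^ D.d := by ring
    _ ≤ _ := by gcongr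

end

end FA

end

end Pool.Agent.N234.NL
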