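import Pool.Agent.N234.NL.Exp
import Pool.Agent.W740.TC.Inj

set_option autoImplicit false
set_option linter.unusedSectionVars false

open Filter Topology Set Metric unitInterval

namespace Pool.Agent.N234.NL

open Pool.Agent.H789R2.AN Pool.Agent.H789R2.GP
open Pool.Agent.N234.TG (TransStr iterB Expanding InjUnstable)

noncomputable section

variable {𝒜 : Type*} [NormedRing 𝒜] [NormedAlgebra ℂ 𝒜] [FiniteDimensional ℂ 𝒜]
  {T : 𝒜ˣ} {D : FA (cj T)} {X : Type*} [MetricSpace X] [CompactSpace X]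
  {f : X ≃ₜ X} (C : LocalCocycle f (D.U : Set 𝒜ˣ) T)

theorem uniform_path {γ : C(I, X)} :
    UnstablePath f γ ↔ ∀ ε > 0, ∀ᶠ n in atTop, ∀ t,
      dist (f.symm^[n] (γ 0)) (f.symm^[n] (γ t)) < ε :=
  Pool.Agent.W740.TC.uniform_path (finv := f.symm) (γ := γ)

namespace LocalCocycle

theorem exists_rad : ∃ η > 0, ∀ x y, dist x y < η → (x, y) ∈ C.𝒱 := by
  have h𝒱 := C.mem_nhds
  rw [nhdsSet_diagonal_eq_uniformity, Metric.mem_uniformity_dist] at h𝒱
  obtain ⟨ε, hε, h1⟩ := h𝒱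
  exact ⟨ε, hε, fun x y h => h1 h⟩

/-- the lift of a small path -/
theorem small_lift {η : ℝ} (hη : ∀ x y, dist x y < η → (x, y) ∈ C.𝒱) (γ : C(I, X))
    (hγ : ∀ s t, dist (γ s) (γ t) < η) :
    ∃ θ : C(I, 𝒜ˣ), (∀ t, θ t = C.δ (γ 0) (γ t)) ∧ IsLift C γ θ := by
  have hmul : ∀ s t, C.δ (γ 0) (γ s) = C.δ (γ 0) (γ t) * C.δ (γ t) (γ s) := fun s t =>
    C.cocycle _ _ _ (hη _ _ (hγ _ _)) (hη _ _ (hγ _ _)) (hη _ _ (hγ _ _))
  have hcont : Continuous (fun t => C.δ (γ 0) (γ t)) := by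
    rw [continuous_iff_continuousAt]
    intro t
    have h1 : Tendsto (fun s => (γ t, γ s)) (𝓝 t) (𝓝 (γ t, γ t)) :=
      (continuous_const.prodMk γ.continuous).tendsto t
    have h2 : Tendsto (fun s => C.δ (γ t) (γ s)) (𝓝 t) (𝓝 1) := (C.tendsto_δ (γ t)).comp h1
    have h3 : Tendsto (fun s => C.δ (γ 0) (γ t) * C.δ (γ t) (γ s)) (𝓝 t)
        (𝓝 (C.δ (γ 0) (γ t) * 1)) := tendsto_const_nhds.mul h2
    rw [mul_one] at h3
    exact h3.congr fun s => (hmul s t).symm
  exact ⟨⟨_, hcont⟩, fun t => rfl, fun t => Eventually.of_forall fun s => hmul s t⟩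

/-- the iterated lifts -/
theorem iter_lift (γ : C(I, X)) (θ : C(I, 𝒜ˣ)) (hθ : IsLift C γ θ) (m : ℕ) :
    ∃ (γ' : C(I, X)) (θ' : C(I, 𝒜ˣ)), (∀ t, γ' t = f^[m] (γ t)) ∧
      (∀ t, θ' t = T ^ m * θ t * (C.Gn m (γ t))⁻¹) ∧ IsLift C γ' θ' := by
  induction m with
  | zero =>
    refine ⟨γ, θ, fun t => rfl, fun t => ?_, hθ⟩
    rw [C.Gn_zero, pow_zero, inv_one, mul_one, one_mul]
  | succ m ih =>
    obtain ⟨γ', θ', h1, h2, h3⟩ := ih
    have hb := C.b_continuous
    refine ⟨⟨fun t => f (γ' t), f.continuous.comp γ'.continuous⟩,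
      ⟨fun t => T * θ' t * T⁻¹ * C.b (γ' t), by
        have := θ'.continuous
        have := γ'.continuous
        fun_prop⟩, fun t => ?_, fun t => ?_, fun t => ?_⟩
    · show f (γ' t) = _
      rw [h1, Function.iterate_succ_apply']
    · show T * θ' t * T⁻¹ * C.b (γ' t) = _
      rw [h2, C.Gn_succ, h1, pow_succ']
      simp only [mul_inv_rev, inv_inv, mul_assoc]
    · have e1 : Tendsto (fun s => (γ' t, γ' s)) (𝓝 t) (𝓝 (γ' t, γ' t)) :=
        (continuous_const.prodMk γ'.continuous).tendsto t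
      have e2 : Tendsto (fun s => (f (γ' t), f (γ' s))) (𝓝 t) (𝓝 (f (γ' t), f (γ' t))) :=
        (continuous_const.prodMk (f.continuous.comp γ'.continuous)).tendsto t
      filter_upwards [h3 t, e1 (C.mem_𝒱 _), e2 (C.mem_𝒱 _)] with s hs hs1 hs2
      show T * θ' s * T⁻¹ * C.b (γ' s) = T * θ' t * T⁻¹ * C.b (γ' t) * C.δ (f (γ' t)) (f (γ' s))
      rw [hs, mul_assoc _ (C.b (γ' t)), C.map_f _ _ hs1 hs2]
      simp only [mul_assoc, inv_mul_cancel_left]

/-- injectivity -/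
theorem inj_of_disp (hX : ULC X) {g : X ≃ₜ X} {N : ℕ} (hN : 1 ≤ N) (hg : ∀ x, g x = f^[N] x)
    {c : ℝ} (h : LP g c) (hU : PolyDisplaced C) :
    ∃ η > 0, ∀ x y, SR g.symm η x y → C.pim x y • C.p y = C.p x → x = y := by
  have hc := h.c_pos
  obtain ⟨η₀, hη₀, hη⟩ := C.exists_rad
  obtain ⟨η, hη', h1⟩ := leaf_path h.symm hX (min (η₀ / 3) c) (lt_min (by positivity) hc)
  refine ⟨min η (min (η₀ / 2) c), by positivity, fun x y hxy0 h0 => ?_⟩
  have hxy : SR g.symm η x y := hxy0.mono (min_le_left _ _)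
  have hxyc : SR g.symm c x y := hxy0.mono ((min_le_right _ _).trans (min_le_right _ _))
  have hdxy : dist x y < η₀ := by
    have := (hxy0 0).trans ((min_le_right _ _).trans (min_le_left _ _))
    have h' : dist x y ≤ η₀ / 2 := this
    linarith
  have hδU : C.δ x y ∈ D.U := C.δ_mem _ _ (hη _ _ hdxy)
  obtain ⟨υ, hυ0, hυ1, hυ⟩ := h1 ⟨x⟩ ⟨y⟩ ((SM.dist_le _ _ hη'.le).mpr hxy)
  let γ : C(I, X) := ⟨fun t => (υ t).val, (SM.continuous_iter_val 0).comp υ.continuous⟩
  have hγ0 : γ 0 = x := by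
    show (υ 0).val = x
    rw [hυ0]
  have hγ1 : γ 1 = y := by
    show (υ 1).val = y
    rw [hυ1]
  have hγ : ∀ t, SR g.symm (min (η₀ / 3) c) x (γ t) := fun t =>
    (SM.dist_le _ _ (lt_min (by positivity) hc).le).mp (hυ t)
  have hdist : ∀ s t, dist (γ s) (γ t) < η₀ := fun s t => by
    have a1 : dist x (γ s) ≤ η₀ / 3 := ((hγ s) 0).trans (min_le_left _ _)
    have a2 : dist x (γ t) ≤ η₀ / 3 := ((hγ t) 0).trans (min_le_left _ _)
    have a3 := dist_triangle_left (γ s) (γ t) x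
    linarith
  obtain ⟨θ, hθ1, hθ2⟩ := C.small_lift hη γ hdist
  have hδ1 : θ 0 = 1 := by
    rw [hθ1]
    have h2 := C.cocycle (γ 0) (γ 0) (γ 0) (hη _ _ (hdist _ _)) (hη _ _ (hdist _ _))
      (hη _ _ (hdist _ _))
    exact mul_eq_left.mp h2.symm
  have hSE := C.disp_growth hδU h0
  -- closeness of all forward iterates
  have key : ∀ k : ℕ, dist (f^[k] x) (f^[k] y) < c := by
    intro k
    have hent : {p : X × X | dist p.1 p.2 < c} ∈ 𝓝ˢ (diagonal X) := by
      rw [nhdsSet_diagonal_eq_uniformity]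
      exact Metric.dist_mem_uniformity hc
    obtain ⟨a, b, hab⟩ := hU _ hent
    set δ : ℝ := 1 / (2 * (|a| + 1)) with hδ
    have hδ0 : 0 < δ := by positivity
    have hδa : |a| * δ ≤ 1 / 2 := by
      rw [hδ, mul_one_div, div_le_div_iff₀ (by positivity) (by positivity)]
      linarith [abs_nonneg a]
    obtain ⟨C₁, hC₁, h2⟩ := hSE δ hδ0
    set L : ℝ := |a| * Real.log (1 + C₁) + |b| with hL
    have hlog0 : 0 ≤ Real.log (1 + C₁) := Real.log_nonneg (by linarith)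
    have hL0 : 0 ≤ L := by positivity
    set m := 2 * (k + ⌈L⌉₊) with hm
    obtain ⟨γ', θ', k1, k2, k3⟩ := C.iter_lift γ θ hθ2 m
    have hpath : UnstablePath f γ' := by
      rw [uniform_path]
      intro ε hε
      obtain ⟨δ', hδ', k4⟩ := T1_unif f.symm N hε
      have h5 : Tendsto (fun n : ℕ => c * (1 / 2 : ℝ) ^ n) atTop (𝓝 0) := by
        have := (tendsto_pow_atTop_nhds_zero_of_lt_one (by norm_num : (0:ℝ) ≤ 1 / 2)
          (by norm_num)).const_mul c
        simpa using this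
      obtain ⟨q₀, hq₀⟩ := eventually_atTop.mp ((tendsto_order.mp h5).2 δ' hδ')
      rw [eventually_atTop]
      refine ⟨m + N * q₀, fun i hi t => ?_⟩
      obtain ⟨j, rfl⟩ := Nat.exists_eq_add_of_le (show m ≤ i by omega)
      have e1 : ∀ s, f.symm^[m + j] (γ' s) = f.symm^[j] (γ s) := fun s => by
        rw [k1, Nat.add_comm m j, Function.iterate_add_apply, iterL]
      rw [e1, e1, hγ0]
      have hj : j = j % N + N * (j / N) := (Nat.mod_add_div j N).symm
      have hgs : ∀ (q : ℕ) (z : X), f.symm^[N * q] z = g.symm^[q] z := by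
        intro q
        induction q with
        | zero => intro z; rfl
        | succ q ih =>
          intro z
          have e2 : f.symm^[N] z = g.symm z := by
            apply g.injective
            rw [g.apply_symm_apply, hg, iterR]
          rw [Nat.mul_succ, Function.iterate_add_apply, e2, ih, ← Function.iterate_succ_apply]
      rw [hj, Function.iterate_add_apply, Function.iterate_add_apply, hgs, hgs]
      refine k4 (j % N) (Nat.mod_lt _ (by omega)).le _ _ ?_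
      refine lt_of_le_of_lt (h.cU _ _ ((hγ t).mono (min_le_right _ _)) (j / N)) ?_
      apply hq₀
      have : N * q₀ ≤ j := by omega
      exact (Nat.le_div_iff_mul_le (by omega)).mpr (by rwa [Nat.mul_comm])
    have hdisp : (θ' 0)⁻¹ * θ' 1 = C.Gn m x * C.δ x y * (C.Gn m y)⁻¹ := by
      rw [k2, k2, hδ1, hθ1, hγ0, hγ1]
      simp only [mul_inv_rev, inv_inv, mul_assoc, mul_one, inv_mul_cancel_left]
    have hlog : Real.log (1 + ‖(((θ' 0)⁻¹ * θ' 1 : 𝒜ˣ) : 𝒜)‖) ≤ Real.log (1 + C₁) + m * δ := by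
      rw [hdisp]
      have h3 := h2 m ()
      have h3' : ‖((C.Gn m x * C.δ x y * (C.Gn m y)⁻¹ : 𝒜ˣ) : 𝒜)‖ ≤ C₁ * (1 + δ) ^ m := h3
      have h4 : (1 : ℝ) ≤ (1 + δ) ^ m := one_le_pow₀ (by linarith)
      have h5 : 1 + ‖((C.Gn m x * C.δ x y * (C.Gn m y)⁻¹ : 𝒜ˣ) : 𝒜)‖ ≤
          (1 + C₁) * (1 + δ) ^ m := by
        rw [add_mul, one_mul]
        linarith
      have h6 := Real.log_le_log (by positivity) h5
      rw [Real.log_mul (by positivity) (by positivity), Real.log_pow] at h6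
      have h7 : Real.log (1 + δ) ≤ δ := by
        have := Real.log_le_sub_one_of_pos (show 0 < 1 + δ by linarith)
        linarith
      have h8 := mul_le_mul_of_nonneg_left h7 (Nat.cast_nonneg (α := ℝ) m)
      linarith
    have hfin := hab γ' θ' hpath k3 (k + 2 * ⌈L⌉₊) (by
      have hl0 : 0 ≤ Real.log (1 + ‖(((θ' 0)⁻¹ * θ' 1 : 𝒜ˣ) : 𝒜)‖) :=
        Real.log_nonneg (by linarith [norm_nonneg (((θ' 0)⁻¹ * θ' 1 : 𝒜ˣ) : 𝒜)])
      have a1 : a * Real.log (1 + ‖(((θ' 0)⁻¹ * θ' 1 : 𝒜ˣ) : 𝒜)‖) ≤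
          |a| * (Real.log (1 + C₁) + m * δ) :=
        (mul_le_mul_of_nonneg_right (le_abs_self a) hl0).trans
          (mul_le_mul_of_nonneg_left hlog (abs_nonneg a))
      have a2 : |a| * (Real.log (1 + C₁) + m * δ) = |a| * Real.log (1 + C₁) + m * (|a| * δ) := by
        ring
      have a3 : (m : ℝ) * (|a| * δ) ≤ m * (1 / 2) :=
        mul_le_mul_of_nonneg_left hδa (Nat.cast_nonneg m)
      have a4 : (m : ℝ) * (1 / 2) = k + ⌈L⌉₊ := by
        rw [hm]; push_cast; ring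
      have a5 := le_abs_self b
      have a6 : L ≤ ⌈L⌉₊ := Nat.le_ceil L
      rw [Nat.cast_add, Nat.cast_mul, Nat.cast_ofNat]
      linarith)
    have hmk : m = (k + 2 * ⌈L⌉₊) + k := by omega
    have e3 : ∀ z : X, f.symm^[k + 2 * ⌈L⌉₊] (f^[m] z) = f^[k] z := by
      intro z
      rw [hmk, Function.iterate_add_apply f (k + 2 * ⌈L⌉₊) k z, iterL]
    simp only [mem_ofPred_eq] at hfin
    rwa [k1, k1, hγ0, hγ1, e3, e3] at hfin
  refine expansive h (fun k => ?_) hxyc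
  have hgk : ∀ (q : ℕ) (z : X), g^[q] z = f^[N * q] z := by
    intro q
    induction q with
    | zero => intro z; rfl
    | succ q ih =>
      intro z
      rw [Function.iterate_succ_apply, ih, hg, ← Function.iterate_add_apply, Nat.mul_succ]
  rw [hgk, hgk]
  exact (key _).le

end LocalCocycle

end

end Pool.Agent.N234.NL
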