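import Pool.Agent.N234.NL.Alg

set_option autoImplicit false
set_option linter.unusedSectionVars false

open Filter Topology Set Module

namespace Pool.Agent.N234.NL

variable {𝒜 : Type*} [NormedRing 𝒜] [NormedAlgebra ℂ 𝒜] [FiniteDimensional ℂ 𝒜]
  {α : 𝒜 ≃ₐ[ℂ] 𝒜} (D : FA α)

namespace FA

/-- commutators -/
theorem comm_mem {x g : 𝒜ˣ} {n : ℕ} (hx : (x : 𝒜) - 1 ∈ D.F (n + 1)) (hg : g ∈ D.U) :
    ((x * g * x⁻¹ * g⁻¹ : 𝒜ˣ) : 𝒜) - 1 ∈ D.F (n + 2) := by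
  have hxU : x ∈ D.U := D.le (by omega) hx
  have h1 : ((x * g * x⁻¹ * g⁻¹ : 𝒜ˣ) : 𝒜) - 1 =
      (((x : 𝒜) - 1) * ((g : 𝒜) - 1) - ((g : 𝒜) - 1) * ((x : 𝒜) - 1)) *
        ((x⁻¹ * g⁻¹ : 𝒜ˣ) : 𝒜) := by
    have h2 : (1 : 𝒜) = ((g * x) * (x⁻¹ * g⁻¹) : 𝒜ˣ) := by
      rw [mul_assoc, mul_inv_cancel_left, mul_inv_cancel]; rfl
    conv_lhs => rw [h2]
    simp only [Units.val_mul]
    noncomm_ring
  have h3 : ((x⁻¹ * g⁻¹ : 𝒜ˣ) : 𝒜) - 1 ∈ D.F 1 := D.U.mul_mem (D.U.inv_mem hxU) (D.U.inv_mem hg)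
  have h4 : ((x : 𝒜) - 1) * ((g : 𝒜) - 1) - ((g : 𝒜) - 1) * ((x : 𝒜) - 1) ∈ D.F (n + 2) :=
    Submodule.sub_mem _ (D.le (by omega) (D.mul hx hg)) (D.le (by omega) (D.mul hg hx))
  rw [h1]
  set a := ((x : 𝒜) - 1) * ((g : 𝒜) - 1) - ((g : 𝒜) - 1) * ((x : 𝒜) - 1) with ha
  have h5 : a * ((x⁻¹ * g⁻¹ : 𝒜ˣ) : 𝒜) = a + a * (((x⁻¹ * g⁻¹ : 𝒜ˣ) : 𝒜) - 1) := by noncomm_ring
  rw [h5]
  exact Submodule.add_mem _ h4 (D.le (by omega) (D.mul h4 h3))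

/-- the subgroups `1 + F (i+1)` -/
def Ui (i : ℕ) : Subgroup 𝒜ˣ := SG (D.F (i + 1)) fun _ ha _ hb => D.le (by omega) (D.mul ha hb)

theorem isNilpotent_of_injective {G : Type*} [Group G] (ρ : G →* 𝒜ˣ)
    (hρ : Function.Injective ρ) (hU : ∀ a, ρ a ∈ D.U) : Group.IsNilpotent G := by
  rw [Subgroup.nilpotent_iff_finite_descending_central_series]
  refine ⟨D.d, fun i => (D.Ui i).comap ρ, ⟨?_, fun x n hx g => ?_⟩, ?_⟩
  · rw [eq_top_iff]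
    exact fun x _ => hU x
  · have h1 := D.comm_mem (g := ρ g) (n := n) hx (hU g)
    show ((ρ (x * g * x⁻¹ * g⁻¹) : 𝒜ˣ) : 𝒜) - 1 ∈ D.F (n + 2)
    simpa only [map_mul, map_inv] using h1
  · rw [eq_bot_iff]
    intro x hx
    have h1 : ((ρ x : 𝒜ˣ) : 𝒜) - 1 ∈ D.F (D.d + 1) := hx
    have h2 := D.eq_zero (by omega) h1
    rw [sub_eq_zero] at h2
    have h3 : ρ x = 1 := Units.ext h2
    rw [Subgroup.mem_bot]
    exact hρ (h3.trans (map_one ρ).symm)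

/-- powers -/
theorem pow_cong {i : ℕ} {a : 𝒜} (ha : a ∈ D.F (i + 1)) (n : ℕ) :
    (1 + a) ^ n - 1 - (n : ℂ) • a ∈ D.F (i + 2) := by
  induction n with
  | zero => simp
  | succ n ih =>
    have h1 : (1 + a) ^ (n + 1) - 1 - ((n + 1 : ℕ) : ℂ) • a =
        ((1 + a) ^ n - 1 - (n : ℂ) • a) + ((1 + a) ^ n - 1 - (n : ℂ) • a) * a +
          (n : ℂ) • (a * a) := by
      rw [pow_succ, Nat.cast_succ, add_smul, one_smul, mul_add, mul_one, sub_mul, sub_mul, one_mul,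
        smul_mul_assoc]
      abel
    rw [h1]
    refine Submodule.add_mem _ (Submodule.add_mem _ ih ?_) ?_
    · exact D.le (by omega) (D.mul ih ha)
    · exact Submodule.smul_mem _ _ (D.le (by omega) (D.mul ha ha))

theorem torsion_free {u : 𝒜ˣ} (hu : u ∈ D.U) {n : ℕ} (hn : n ≠ 0) (h : u ^ n = 1) : u = 1 := by
  have key : ∀ i, (u : 𝒜) - 1 ∈ D.F (i + 1) := by
    intro i
    induction i with
    | zero => exact hu
    | succ i ih =>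
      have h1 := D.pow_cong ih n
      have h2 : (1 + ((u : 𝒜) - 1)) ^ n = 1 := by
        rw [add_sub_cancel, ← Units.val_pow_eq_pow_val, h]; rfl
      rw [h2, sub_self, zero_sub] at h1
      have h3 := Submodule.neg_mem _ h1
      rw [neg_neg] at h3
      exact (Submodule.smul_mem_iff _ (by exact_mod_cast hn)).mp h3
  have h1 := D.eq_zero (by omega) (key D.d)
  exact Units.ext (sub_eq_zero.mp h1)

end FA

end Pool.Agent.N234.NL
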