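import Pool.Agent.N234.NL.Inj
import Pool.Agent.N234.NL.Nil
import Pool.Agent.N234.TG.Main

set_option autoImplicit false
set_option linter.unusedSectionVars false

open Filter Topology Set Metric
open scoped Manifold ContDiff

namespace Pool.Agent.N234.NL

open Pool.Agent.H721R2 Pool.Agent.H789R2.AN Pool.Agent.H789R2.GP
open Pool.Agent.W740.TC (exists_sys_ge)
open Pool.Agent.TH289.K (GPS)
open Pool.Agent.N234.TG (TransStr Expanding InjUnstable man_main)

noncomputable section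

/-- the filtration given by a flag -/
def flagFA {W : Type*} [NormedAddCommGroup W] [NormedSpace ℂ W] [FiniteDimensional ℂ W]
    (V : ℕ → Submodule ℂ W) (d : ℕ) (h0 : V 0 = ⊥) (hd : V d = ⊤) (hm : Monotone V)
    (T : (W →L[ℂ] W)ˣ) (hT : ∀ j, ∀ w ∈ V j, (T : W →L[ℂ] W) w ∈ V j) : FA (cj T) where
  F i :=
    { carrier := {a | ∀ j, ∀ w ∈ V j, a w ∈ V (j - i)}
      add_mem' := fun ha hb j w hw => Submodule.add_mem _ (ha j w hw) (hb j w hw)
      zero_mem' := fun j w _ => Submodule.zero_mem _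
      smul_mem' := fun c a ha j w hw => Submodule.smul_mem _ c (ha j w hw) }
  d := d
  anti i a ha j w hw := hm (by omega) (ha j w hw)
  mul := by
    intro i k a b ha hb j w hw
    have h1 := ha _ _ (hb j w hw)
    rw [Nat.sub_sub, Nat.add_comm k i] at h1
    exact h1
  bot := by
    rw [eq_bot_iff]
    intro a ha
    rw [Submodule.mem_bot]
    ext w
    have h1 : a w ∈ V (d - d) := ha d w (by rw [hd]; exact Submodule.mem_top)
    rw [Nat.sub_self, h0, Submodule.mem_bot] at h1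
    exact h1
  map := by
    intro i a ha j w hw
    let e : W ≃ₗ[ℂ] W :=
      { toFun := (T : W →L[ℂ] W)
        map_add' := map_add _
        map_smul' := map_smul _
        invFun := ((T⁻¹ : (W →L[ℂ] W)ˣ) : W →L[ℂ] W)
        left_inv := fun v => by
          have h := congrArg (fun b : W →L[ℂ] W => b v) (Units.inv_mul T)
          exact h
        right_inv := fun v => by
          have h := congrArg (fun b : W →L[ℂ] W => b v) (Units.mul_inv T)
          exact h }
    have h1 : ((T⁻¹ : (W →L[ℂ] W)ˣ) : W →L[ℂ] W) w ∈ V j :=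
      symm_mem e (V j) (fun x hx => hT j x hx) w hw
    exact hT _ _ (ha j _ h1)

theorem flagFA_U {W : Type*} [NormedAddCommGroup W] [NormedSpace ℂ W] [FiniteDimensional ℂ W]
    (V : ℕ → Submodule ℂ W) (d : ℕ) (h0 : V 0 = ⊥) (hd : V d = ⊤) (hm : Monotone V)
    (T : (W →L[ℂ] W)ˣ) (hT : ∀ j, ∀ w ∈ V j, (T : W →L[ℂ] W) w ∈ V j) :
    ((flagFA V d h0 hd hm T hT).U : Set (W →L[ℂ] W)ˣ) = Unip V := by
  ext u
  constructor
  · intro hu j w hw
    exact hu (j + 1) w hw
  · intro hu j w hw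
    cases j with
    | zero =>
      rw [h0, Submodule.mem_bot] at hw
      rw [hw, map_zero]
      exact Submodule.zero_mem _
    | succ j => exact hu j w hw

section manifold

variable {E : Type*} [NormedAddCommGroup E] [NormedSpace ℝ E] [FiniteDimensional ℝ E]
  {M : Type*} [TopologicalSpace M] [T2Space M] [CompactSpace M] [ConnectedSpace M]
  [ChartedSpace E M] [IsManifold 𝓘(ℝ, E) ∞ M]
  {𝒜 : Type*} [NormedRing 𝒜] [NormedAlgebra ℂ 𝒜] [FiniteDimensional ℂ 𝒜]
  {T : 𝒜ˣ} (D : FA (cj T))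

/-- The main theorem. -/
theorem nil_main (f : Diffeomorph 𝓘(ℝ, E) 𝓘(ℝ, E) M M 1)
    (Es Eu : ∀ x : M, Submodule ℝ (TangentSpace 𝓘(ℝ, E) x)) (hA : IsAnosov f Es Eu)
    (U : Set 𝒜ˣ) (hDU : (D.U : Set 𝒜ˣ) = U)
    (C : LocalCocycle f.toHomeomorph U T) (hU : PolyDisplaced C) :
    TopTransitive f ∧ Dense (Function.periodicPts f) ∧ GPS f.toHomeomorph ∧
      (∃ q : E → M, IsCoveringMap q ∧ Function.Surjective q) ∧
      ∀ x : M, ∃ ρ : FundamentalGroup M x →* 𝒜ˣ, Function.Injective ρ ∧ ∀ a, ρ a ∈ U := by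
  subst hDU
  obtain ⟨𝒱₀, h𝒱₀, hinj⟩ : ∃ 𝒱₀ ∈ 𝓝ˢ (diagonal M), ∀ x y : M,
      (∀ n : ℕ, (f.toHomeomorph.symm^[n] x, f.toHomeomorph.symm^[n] y) ∈ 𝒱₀) →
      C.pim x y • C.p y = C.p x → x = y := by
    obtain ⟨m, ee, hee, hemb, hinj'⟩ :=
      exists_embedding_euclidean_of_compact (I := 𝓘(ℝ, E)) (M := M)
    let _ : MetricSpace M := hemb.isEmbedding.comapMetricSpace ee
    have hiso : ∀ x y : M, dist x y = ‖ee x - ee y‖ := fun x y => dist_eq_norm (ee x) (ee y)
    have he1 : ContMDiff 𝓘(ℝ, E) (𝓡 m) 1 ee := hee.of_le (by simp)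
    obtain ⟨n, S, hn1, hg, hSe, hVs, hVu⟩ := exists_sys_ge hiso he1 hinj' f Es Eu hA 1
    have hgi : ∀ x, S.g x = (f.toHomeomorph)^[n] x := fun x => by
      rw [hg]; rfl
    have : ProperSpace E := FiniteDimensional.proper_real E
    obtain ⟨c, h⟩ := exists_LP S
    have hX : ULC M := ulc_of_charted (X := M) (E := E)
    obtain ⟨η, hη, h1⟩ := C.inj_of_disp hX hn1 hgi h hU
    refine ⟨{q : M × M | dist q.1 q.2 < η}, ?_, fun x y hxy h0 => h1 x y (fun k => ?_) h0⟩
    · rw [nhdsSet_diagonal_eq_uniformity]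
      exact Metric.dist_mem_uniformity hη
    · have hgs : ∀ (q : ℕ) (z : M), f.toHomeomorph.symm^[n * q] z = S.g.symm^[q] z := by
        intro q
        induction q with
        | zero => intro z; rfl
        | succ q ih =>
          intro z
          have e2 : f.toHomeomorph.symm^[n] z = S.g.symm z := by
            apply S.g.injective
            rw [S.g.apply_symm_apply, hgi, iterR]
          rw [Nat.mul_succ, Function.iterate_add_apply, e2, ih, ← Function.iterate_succ_apply]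
      rw [← hgs, ← hgs]
      exact (hxy (n * k)).le
  obtain ⟨h1, h2, h3, h4, h5⟩ := man_main f Es Eu hA (C.str h𝒱₀) (C.expanding h𝒱₀)
    (fun x y hxy h0 => hinj x y (fun n => (hxy n).2) h0)
  refine ⟨h1, h2, h3, h4, fun x => ?_⟩
  obtain ⟨ρ, hρ1, hρ2⟩ := h5 x
  have h6 : ∀ a, (ρ a).1.2 = 1 := by
    let H : Subgroup D.S :=
      { carrier := {s | s.1.2 = 1}
        one_mem' := rfl
        mul_mem' := fun {s t} (hs : s.1.2 = 1) (ht : t.1.2 = 1) => by
          show s.1.2 * t.1.2 = 1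
          rw [hs, ht, one_mul]
        inv_mem' := fun {s} (hs : s.1.2 = 1) => by
          show (s.1.2)⁻¹ = 1
          rw [hs, inv_one] }
    refine hρ2 H fun y z hyz => ?_
    show (C.pim y z).1.2 = 1
    rw [C.pim_eq (C.δ_mem _ _ hyz.1.1)]
    rfl
  refine ⟨(MonoidHom.fst 𝒜ˣ (Multiplicative ℤ)).comp (D.S.subtype.comp ρ), fun a b hab => ?_,
    fun a => ?_⟩
  · apply hρ1
    apply Subtype.ext
    apply Prod.ext
    · exact hab
    · rw [h6, h6]
  · show (ρ a).1.1 ∈ D.U
    have h7 : (ρ a).1.1 * (FA.tau T (ρ a).1.2)⁻¹ ∈ D.U := (ρ a).2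
    rwa [h6, map_one, inv_one, mul_one] at h7

end manifold

end

end Pool.Agent.N234.NL
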