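import Pool.Agent.N234.NL.Act

set_option autoImplicit false
set_option linter.unusedSectionVars false

open Filter Topology Set Module

namespace Pool.Agent.N234.NL

open Pool.Agent.W740.TC

noncomputable section

variable {𝒜 : Type*} [NormedRing 𝒜] [NormedAlgebra ℂ 𝒜] [FiniteDimensional ℂ 𝒜]
  {X : Type*} [TopologicalSpace X] [CompactSpace X]

theorem bdd_of_continuous {h : X → 𝒜} (hh : Continuous h) : ∃ R : ℝ, 0 ≤ R ∧ ∀ x, ‖h x‖ ≤ R := by
  obtain ⟨R, hR⟩ := (isCompact_range hh).isBounded.exists_norm_le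
  exact ⟨|R|, abs_nonneg R, fun x => (hR _ (mem_range_self x)).trans (le_abs_self R)⟩

/-- the cohomological equation -/
theorem solve_coh (α : 𝒜 ≃ₐ[ℂ] 𝒜) {f : X → X} (hf : Continuous f) (K : Submodule ℂ 𝒜)
    (hK : ∀ x ∈ K, α x ∈ K) (hKu : K ≤ Au α) (r : X → 𝒜) (hr : Continuous r)
    (hrK : ∀ x, r x ∈ K) : ∃ η : X → 𝒜, Continuous η ∧ (∀ x, η x ∈ K) ∧
      ∀ x, η x = r x + α.symm (η (f x)) := by
  obtain ⟨C, l, hC, hl0, hl1, h⟩ := Wu_unif α.toLinearEquiv
  obtain ⟨R, hR0, hR⟩ := bdd_of_continuous hr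
  have hcs : Continuous α.symm :=
    LinearMap.continuous_of_finiteDimensional (α.symm.toLinearEquiv : 𝒜 →ₗ[ℂ] 𝒜)
  have hb : ∀ (n : ℕ) (x : X), ‖α.symm^[n] (r (f^[n] x))‖ ≤ C * R * l ^ n := by
    intro n x
    refine (h n _ (hKu (hrK (f^[n] x)))).trans ?_
    have := hR (f^[n] x)
    calc C * l ^ n * ‖r (f^[n] x)‖ ≤ C * l ^ n * R := by gcongr
      _ = _ := by ring
  have hsum : Summable (fun n : ℕ => C * R * l ^ n) :=
    (summable_geometric_of_lt_one hl0 hl1).mul_left _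
  have hcomp : CompleteSpace 𝒜 := FiniteDimensional.complete ℂ 𝒜
  have hs : ∀ x, Summable (fun n : ℕ => α.symm^[n] (r (f^[n] x))) := fun x =>
    Summable.of_norm_bounded hsum (fun n => hb n x)
  refine ⟨fun x => ∑' n, α.symm^[n] (r (f^[n] x)), ?_, fun x => ?_, fun x => ?_⟩
  · refine continuous_tsum (fun n => ?_) hsum hb
    exact (hcs.iterate n).comp (hr.comp (hf.iterate n))
  · have hcl : IsClosed (K : Set 𝒜) := Submodule.closed_of_finiteDimensional K
    refine hcl.mem_of_tendsto (hs x).hasSum (Eventually.of_forall fun s => ?_)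
    exact Submodule.sum_mem _ fun n _ => symm_iter_mem α.toLinearEquiv K hK n _ (hrK _)
  · show ∑' n, α.symm^[n] (r (f^[n] x)) = r x + α.symm (∑' n, α.symm^[n] (r (f^[n] (f x))))
    rw [(hs x).tsum_eq_zero_add]
    congr 1
    let L : 𝒜 →L[ℂ] 𝒜 := LinearMap.toContinuousLinearMap (α.symm.toLinearEquiv : 𝒜 →ₗ[ℂ] 𝒜)
    have h1 : α.symm (∑' n, α.symm^[n] (r (f^[n] (f x)))) =
        ∑' n, L (α.symm^[n] (r (f^[n] (f x)))) := L.map_tsum (hs (f x))
    rw [h1]
    refine tsum_congr fun n => ?_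
    rw [Function.iterate_succ_apply' α.symm, Function.iterate_succ_apply]
    rfl

namespace FA

variable {T : 𝒜ˣ} (D : FA (cj T))

theorem exists_q {f : X → X} (hf : Continuous f) {b : X → 𝒜ˣ} (hb : Continuous b)
    (hbU : ∀ x, b x ∈ D.U) (i : ℕ) : ∃ q : X → 𝒜, Continuous q ∧ (∀ x, q x ∈ D.Fu) ∧
      ∀ x, cj T (q x) - D.yu ((b x : 𝒜) * (1 + q (f x)) - 1) ∈ D.F (i + 1) := by
  have hbc := continuous_units.mp hb
  have hcs : Continuous (cj T).symm :=
    LinearMap.continuous_of_finiteDimensional ((cj T).symm.toLinearEquiv : 𝒜 →ₗ[ℂ] 𝒜)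
  have hx1 : ∀ (x : X) (v : 𝒜), v ∈ D.F 1 → (b x : 𝒜) * (1 + v) - 1 ∈ D.F 1 := by
    intro x v hv
    have h1 : (b x : 𝒜) * (1 + v) - 1 = ((b x : 𝒜) - 1) + ((b x : 𝒜) - 1) * v + v := by
      noncomm_ring
    rw [h1]
    exact Submodule.add_mem _ (Submodule.add_mem _ (hbU x) (D.mul1 (hbU x) hv)) hv
  induction i with
  | zero =>
    refine ⟨fun _ => 0, continuous_const, fun _ => Submodule.zero_mem _, fun x => ?_⟩
    rw [map_zero, zero_sub]
    exact Submodule.neg_mem _ (D.yu_mem (hx1 x 0 (Submodule.zero_mem _))).1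
  | succ i ih =>
    obtain ⟨q, hqc, hqm, hq⟩ := ih
    let r : X → 𝒜 := fun x => (cj T).symm (D.yu ((b x : 𝒜) * (1 + q (f x)) - 1)) - q x
    have hr : ∀ x, r x = (cj T).symm (D.yu ((b x : 𝒜) * (1 + q (f x)) - 1)) - q x := fun _ => rfl
    have hrc : Continuous r := by
      refine (hcs.comp (D.yu_continuous.comp ?_)).sub hqc
      exact (hbc.mul (continuous_const.add (hqc.comp hf))).sub continuous_const
    have hrr : ∀ x, cj T (r x) = -(cj T (q x) - D.yu ((b x : 𝒜) * (1 + q (f x)) - 1)) := by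
      intro x
      rw [hr, map_sub, AlgEquiv.apply_symm_apply]
      abel
    have hrF : ∀ x, r x ∈ D.F (i + 1) := by
      intro x
      have h1 : cj T (r x) ∈ D.F (i + 1) := by
        rw [hrr]; exact Submodule.neg_mem _ (hq x)
      have h2 := D.map_symm h1
      rwa [AlgEquiv.symm_apply_apply] at h2
    have hrA : ∀ x, r x ∈ Au (cj T) := by
      intro x
      refine Submodule.sub_mem _ ?_ (hqm x).2
      exact symm_mem (cj T).toLinearEquiv _ (Wu_map _) _ (D.yu_mem (hx1 x _ (hqm (f x)).1)).2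
    obtain ⟨η, hηc, hηm, hη⟩ := solve_coh (cj T) hf (D.F (i + 1) ⊓ Au (cj T))
      (fun x hx => ⟨D.map hx.1, Wu_map _ _ hx.2⟩) inf_le_right r hrc (fun x => ⟨hrF x, hrA x⟩)
    refine ⟨fun x => q x + η x, hqc.add hηc, fun x =>
      ⟨Submodule.add_mem _ (hqm x).1 (D.le (by omega) (hηm x).1),
        Submodule.add_mem _ (hqm x).2 (hηm x).2⟩, fun x => ?_⟩
    set e := (b x : 𝒜) * η (f x) with he
    set a := (b x : 𝒜) * (1 + q (f x)) - 1 with ha
    have e1 : (b x : 𝒜) * (1 + (q (f x) + η (f x))) - 1 = a + e := by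
      rw [ha, he]; noncomm_ring
    have e2 : e = η (f x) + ((b x : 𝒜) - 1) * η (f x) := by rw [he]; noncomm_ring
    have e3 : ((b x : 𝒜) - 1) * η (f x) ∈ D.F (i + 2) :=
      D.le (by omega) (D.mul (hbU x) (hηm (f x)).1)
    have heF : e ∈ D.F (i + 1) := by
      rw [e2]; exact Submodule.add_mem _ (hηm (f x)).1 (D.le (by omega) e3)
    have h1 := D.yu_cong (hx1 x _ (hqm (f x)).1) heF
    rw [← ha] at h1
    have h2 : P (cj T) e - η (f x) ∈ D.F (i + 2) := by
      have h3 : P (cj T) e - η (f x) = P (cj T) (((b x : 𝒜) - 1) * η (f x)) := by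
        rw [e2, map_add, Pu_of_mem (cj T).toLinearEquiv (hηm (f x)).2]
        abel
      rw [h3]
      exact D.P_mem e3
    show cj T (q x + η x) - D.yu ((b x : 𝒜) * (1 + (q (f x) + η (f x))) - 1) ∈ D.F (i + 2)
    rw [e1]
    have h4 : cj T (η x) = cj T (r x) + η (f x) := by
      rw [hη x, map_add, AlgEquiv.apply_symm_apply]
    have h5 : cj T (q x + η x) - D.yu (a + e) =
        -(D.yu (a + e) - D.yu a - P (cj T) e) - (P (cj T) e - η (f x)) := by
      rw [map_add, h4, hrr, ← ha]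
      abel
    rw [h5]
    exact Submodule.sub_mem _ (Submodule.neg_mem _ h1) h2

/-- the section -/
theorem exists_section {f : X → X} (hf : Continuous f) {b : X → 𝒜ˣ} (hb : Continuous b)
    (hbU : ∀ x, b x ∈ D.U) : ∃ p : X → D.Uu, Continuous p ∧
      ∀ x, D.ku (b x * (p (f x) : 𝒜ˣ)) = T * p x * T⁻¹ := by
  obtain ⟨q, hqc, hqm, hq⟩ := D.exists_q hf hb hbU D.d
  have h0 : ∀ x, cj T (q x) = D.yu ((b x : 𝒜) * (1 + q (f x)) - 1) := fun x =>
    sub_eq_zero.mp (D.eq_zero (by omega) (hq x))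
  choose p hp using fun x => D.exists_unit (hqm x).1
  have hpm : ∀ x, p x ∈ D.Uu := by
    intro x
    show (p x : 𝒜) - 1 ∈ D.Fu
    rw [hp, add_sub_cancel_left]
    exact hqm x
  refine ⟨fun x => ⟨p x, hpm x⟩, ?_, fun x => ?_⟩
  · rw [Topology.IsInducing.subtypeVal.continuous_iff]
    show Continuous p
    rw [continuous_units]
    simp only [hp]
    exact continuous_const.add hqc
  · show D.ku (b x * p (f x)) = T * p x * T⁻¹
    have hU : b x * p (f x) ∈ D.U := D.U.mul_mem (hbU x) (D.Uu_le (hpm _))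
    apply Units.ext
    rw [D.ku_val hU]
    have h1 : ((T * p x * T⁻¹ : 𝒜ˣ) : 𝒜) = cj T (p x) := rfl
    rw [h1, hp, map_add, map_one, h0, Units.val_mul, hp]

end FA

end

end Pool.Agent.N234.NL
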