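import Pool.Agent.W740.TC.Lin

set_option autoImplicit false
set_option linter.unusedSectionVars false

open Filter Topology Set Module

namespace Pool.Agent.N234.NL

open Pool.Agent.W740.TC

section lin

variable {W : Type*} [NormedAddCommGroup W] [NormedSpace ℂ W] [FiniteDimensional ℂ W]
  (α : W ≃ₗ[ℂ] W)

/-- invariant subspaces are invariant under the inverse -/
theorem symm_mem (K : Submodule ℂ W) (hK : ∀ x ∈ K, α x ∈ K) : ∀ x ∈ K, α.symm x ∈ K := by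
  intro x hx
  let f : K →ₗ[ℂ] K := (α : W →ₗ[ℂ] W).restrict hK
  have hf : Function.Injective f := by
    intro a b hab
    apply Subtype.ext
    apply α.injective
    exact congrArg Subtype.val hab
  obtain ⟨y, hy⟩ := (LinearMap.injective_iff_surjective.mp hf) ⟨x, hx⟩
  have h1 : α (y : W) = x := congrArg Subtype.val hy
  rw [← h1, α.symm_apply_apply]
  exact y.2

theorem symm_iter_mem (K : Submodule ℂ W) (hK : ∀ x ∈ K, α x ∈ K) (n : ℕ) :
    ∀ x ∈ K, α.symm^[n] x ∈ K := by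
  induction n with
  | zero => exact fun x hx => hx
  | succ n ih =>
    intro x hx
    rw [Function.iterate_succ_apply]
    exact ih _ (symm_mem α K hK x hx)

theorem iter_mem (K : Submodule ℂ W) (hK : ∀ x ∈ K, α x ∈ K) (n : ℕ) :
    ∀ x ∈ K, α^[n] x ∈ K := by
  induction n with
  | zero => exact fun x hx => hx
  | succ n ih =>
    intro x hx
    rw [Function.iterate_succ_apply]
    exact ih _ (hK x hx)

theorem iter_symm_iter (n : ℕ) (x : W) : α^[n] (α.symm^[n] x) = x :=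
  (Function.LeftInverse.iterate α.apply_symm_apply n) x

theorem symm_iter_iter (n : ℕ) (x : W) : α.symm^[n] (α^[n] x) = x :=
  (Function.LeftInverse.iterate α.symm_apply_apply n) x

/-- the projection to the expanding part -/
noncomputable def Pu : W →ₗ[ℂ] W := (Wu (α : W →ₗ[ℂ] W)).projection _ (W_compl (α : W →ₗ[ℂ] W))

theorem Pu_mem (x : W) : Pu α x ∈ Wu (α : W →ₗ[ℂ] W) := Submodule.projection_apply_mem _ _

theorem Pc_mem (x : W) : x - Pu α x ∈ Wc (α : W →ₗ[ℂ] W) := by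
  have h := Submodule.projection_add_projection_eq_self (W_compl (α : W →ₗ[ℂ] W)) x
  have h1 : x - Pu α x = (Wc (α : W →ₗ[ℂ] W)).projection _ (W_compl (α : W →ₗ[ℂ] W)).symm x := by
    rw [sub_eq_iff_eq_add, add_comm]
    exact h.symm
  rw [h1]
  exact Submodule.projection_apply_mem _ _

theorem Pu_eq {x a : W} (ha : a ∈ Wu (α : W →ₗ[ℂ] W)) (hb : x - a ∈ Wc (α : W →ₗ[ℂ] W)) :
    Pu α x = a := by
  have h1 : Pu α x - a ∈ Wu (α : W →ₗ[ℂ] W) := Submodule.sub_mem _ (Pu_mem α x) ha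
  have h2 : Pu α x - a ∈ Wc (α : W →ₗ[ℂ] W) := by
    have : Pu α x - a = (x - a) - (x - Pu α x) := by abel
    rw [this]
    exact Submodule.sub_mem _ hb (Pc_mem α x)
  have h3 := (W_compl (α : W →ₗ[ℂ] W)).disjoint.le_bot ⟨h1, h2⟩
  rw [Submodule.mem_bot] at h3
  exact sub_eq_zero.mp h3

theorem Pu_of_mem {x : W} (h : x ∈ Wu (α : W →ₗ[ℂ] W)) : Pu α x = x :=
  Pu_eq α h (by rw [sub_self]; exact Submodule.zero_mem _)

theorem Pu_of_memc {x : W} (h : x ∈ Wc (α : W →ₗ[ℂ] W)) : Pu α x = 0 :=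
  Pu_eq α (Submodule.zero_mem _) (by rwa [sub_zero])

theorem Pu_idem (x : W) : Pu α (Pu α x) = Pu α x := Pu_of_mem α (Pu_mem α x)

theorem Pu_comm (x : W) : Pu α (α x) = α (Pu α x) := by
  apply Pu_eq
  · exact Wu_map _ _ (Pu_mem α x)
  · rw [← map_sub]
    exact Wc_map _ _ (Pc_mem α x)

/-- the expanding part is contracted exponentially by the inverse -/
theorem Wu_unif : ∃ C l : ℝ, 0 ≤ C ∧ 0 ≤ l ∧ l < 1 ∧ ∀ (n : ℕ),
    ∀ x ∈ Wu (α : W →ₗ[ℂ] W), ‖α.symm^[n] x‖ ≤ C * l ^ n * ‖x‖ := by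
  obtain ⟨C, l, h0, h1, h2⟩ := Tu_exp (α : W →ₗ[ℂ] W)
  refine ⟨|C|, l, abs_nonneg C, h0, h1, fun n x hx => ?_⟩
  have hm := symm_iter_mem α _ (Wu_map (α : W →ₗ[ℂ] W)) n x hx
  have h3 := h2 n ⟨_, hm⟩
  have h4 : ∀ (m : ℕ) (v : Wu (α : W →ₗ[ℂ] W)),
      ((((Tu (α : W →ₗ[ℂ] W)) ^ m) v : Wu (α : W →ₗ[ℂ] W)) : W) = α^[m] (v : W) := by
    intro m
    induction m with
    | zero => intro v; rfl
    | succ m ih =>
      intro v
      rw [pow_succ, Function.iterate_succ_apply]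
      exact ih _
  have h5 : ‖((Tu (α : W →ₗ[ℂ] W)) ^ n) ⟨_, hm⟩‖ = ‖x‖ := by
    rw [Submodule.coe_norm, h4, iter_symm_iter]
  rw [h5] at h3
  refine h3.trans ?_
  gcongr
  exact le_abs_self C

/-- subexponential growth on the other part -/
theorem Wc_unif (δ : ℝ) (hδ : 0 < δ) : ∃ C : ℝ, 0 ≤ C ∧ ∀ (n : ℕ),
    ∀ x ∈ Wc (α : W →ₗ[ℂ] W), ‖α^[n] x‖ ≤ C * (1 + δ) ^ n * ‖x‖ := by
  obtain ⟨C, hC, h2⟩ := Tc_growth (α : W →ₗ[ℂ] W) δ hδ
  refine ⟨C, hC, fun n x hx => ?_⟩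
  have h3 := h2 n ⟨x, hx⟩
  have h4 : ∀ (m : ℕ) (v : Wc (α : W →ₗ[ℂ] W)),
      ((((Tc (α : W →ₗ[ℂ] W)) ^ m) v : Wc (α : W →ₗ[ℂ] W)) : W) = α^[m] (v : W) := by
    intro m
    induction m with
    | zero => intro v; rfl
    | succ m ih =>
      intro v
      rw [pow_succ, Function.iterate_succ_apply]
      exact ih _
  rw [Submodule.coe_norm, h4] at h3
  exact h3

theorem Pu_bdd : ∃ K : ℝ, 1 ≤ K ∧ ∀ x, ‖Pu α x‖ ≤ K * ‖x‖ := by
  let P : W →L[ℂ] W := LinearMap.toContinuousLinearMap (Pu α)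
  refine ⟨max 1 ‖P‖, le_max_left _ _, fun x => ?_⟩
  exact (P.le_opNorm x).trans (mul_le_mul_of_nonneg_right (le_max_right _ _) (norm_nonneg _))

theorem exists_delta {l : ℝ} (h1 : l < 1) : ∃ δ : ℝ, 0 < δ ∧ (1 + δ) * l < 1 := by
  refine ⟨(1 - l) / 2, by linarith, ?_⟩
  nlinarith

/-- decay characterizes the expanding part -/
theorem dec_mem {x : W} (h : ∃ C l : ℝ, 0 ≤ l ∧ l < 1 ∧ ∀ n : ℕ, ‖α.symm^[n] x‖ ≤ C * l ^ n) :
    x ∈ Wu (α : W →ₗ[ℂ] W) := by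
  obtain ⟨C₁, l₁, hl0, hl1, h1⟩ := h
  obtain ⟨C₂, l₂, hC₂, hm0, hm1, h2⟩ := Wu_unif α
  set l := max l₁ l₂ with hl
  have hl0' : 0 ≤ l := hl0.trans (le_max_left _ _)
  have hl1' : l < 1 := max_lt hl1 hm1
  obtain ⟨δ, hδ, hδ2⟩ := exists_delta hl1'
  obtain ⟨C₃, hC₃, h3⟩ := Wc_unif α δ hδ
  set b := x - Pu α x with hb
  have hbc : b ∈ Wc (α : W →ₗ[ℂ] W) := Pc_mem α x
  have hsub : ∀ (n : ℕ) (y z : W), α.symm^[n] (y - z) = α.symm^[n] y - α.symm^[n] z := by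
    intro n
    induction n with
    | zero => intro y z; rfl
    | succ n ih =>
      intro y z
      rw [Function.iterate_succ_apply, map_sub, ih]
      rfl
  have h4 : ∀ n : ℕ, ‖b‖ ≤ C₃ * (|C₁| + C₂ * ‖Pu α x‖) * ((1 + δ) * l) ^ n := by
    intro n
    have h5 := h3 n _ (symm_iter_mem α _ (Wc_map (α : W →ₗ[ℂ] W)) n b hbc)
    rw [iter_symm_iter] at h5
    have h6 : ‖α.symm^[n] b‖ ≤ (|C₁| + C₂ * ‖Pu α x‖) * l ^ n := by
      rw [hb, hsub]
      refine (norm_sub_le _ _).trans ?_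
      have h7 := h1 n
      have h8 := h2 n _ (Pu_mem α x)
      have h9 : C₁ * l₁ ^ n ≤ |C₁| * l ^ n :=
        mul_le_mul (le_abs_self _) (pow_le_pow_left₀ hl0 (le_max_left _ _) n) (by positivity)
          (abs_nonneg _)
      have h10 : C₂ * l₂ ^ n * ‖Pu α x‖ ≤ C₂ * l ^ n * ‖Pu α x‖ := by
        gcongr
        exact le_max_right _ _
      linarith
    calc ‖b‖ ≤ C₃ * (1 + δ) ^ n * ‖α.symm^[n] b‖ := h5
      _ ≤ C₃ * (1 + δ) ^ n * ((|C₁| + C₂ * ‖Pu α x‖) * l ^ n) := by gcongr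
      _ = _ := by rw [mul_pow]; ring
  have h5 : Tendsto (fun n : ℕ => C₃ * (|C₁| + C₂ * ‖Pu α x‖) * ((1 + δ) * l) ^ n) atTop (𝓝 0) := by
    have := (tendsto_pow_atTop_nhds_zero_of_lt_one (by positivity) hδ2).const_mul
      (C₃ * (|C₁| + C₂ * ‖Pu α x‖))
    simpa using this
  have h6 : ‖b‖ ≤ 0 := ge_of_tendsto' h5 h4
  have h7 : b = 0 := norm_le_zero_iff.mp h6
  rw [hb, sub_eq_zero] at h7
  rw [h7]
  exact Pu_mem α x

/-- subexponential growth characterizes the other part -/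
theorem sub_mem' {x : W} (h : ∀ δ : ℝ, 0 < δ → ∃ C : ℝ, ∀ n : ℕ, ‖α^[n] x‖ ≤ C * (1 + δ) ^ n) :
    x ∈ Wc (α : W →ₗ[ℂ] W) := by
  obtain ⟨C₂, l, hC₂, hm0, hm1, h2⟩ := Wu_unif α
  obtain ⟨δ, hδ, hδ2⟩ := exists_delta hm1
  obtain ⟨C₁, h1⟩ := h δ hδ
  obtain ⟨C₃, hC₃, h3⟩ := Wc_unif α δ hδ
  have hsub : ∀ (n : ℕ) (y z : W), α^[n] (y - z) = α^[n] y - α^[n] z := by
    intro n
    induction n with
    | zero => intro y z; rfl
    | succ n ih =>
      intro y z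
      rw [Function.iterate_succ_apply, map_sub, ih]
      rfl
  have h4 : ∀ n : ℕ, ‖Pu α x‖ ≤ C₂ * (|C₁| + C₃ * ‖x - Pu α x‖) * ((1 + δ) * l) ^ n := by
    intro n
    have h5 := h2 n _ (iter_mem α _ (Wu_map (α : W →ₗ[ℂ] W)) n _ (Pu_mem α x))
    rw [symm_iter_iter] at h5
    have h6 : ‖α^[n] (Pu α x)‖ ≤ (|C₁| + C₃ * ‖x - Pu α x‖) * (1 + δ) ^ n := by
      have e : Pu α x = x - (x - Pu α x) := by abel
      rw [e, hsub, ← e]
      refine (norm_sub_le _ _).trans ?_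
      have h7 := h1 n
      have h8 := h3 n _ (Pc_mem α x)
      have h9 : C₁ * (1 + δ) ^ n ≤ |C₁| * (1 + δ) ^ n :=
        mul_le_mul_of_nonneg_right (le_abs_self _) (by positivity)
      linarith
    calc ‖Pu α x‖ ≤ C₂ * l ^ n * ‖α^[n] (Pu α x)‖ := h5
      _ ≤ C₂ * l ^ n * ((|C₁| + C₃ * ‖x - Pu α x‖) * (1 + δ) ^ n) := by gcongr
      _ = _ := by rw [mul_pow]; ring
  have h5 : Tendsto (fun n : ℕ => C₂ * (|C₁| + C₃ * ‖x - Pu α x‖) * ((1 + δ) * l) ^ n) atTop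
      (𝓝 0) := by
    have := (tendsto_pow_atTop_nhds_zero_of_lt_one (by positivity) hδ2).const_mul
      (C₂ * (|C₁| + C₃ * ‖x - Pu α x‖))
    simpa using this
  have h6 : ‖Pu α x‖ ≤ 0 := ge_of_tendsto' h5 h4
  have h7 : Pu α x = 0 := norm_le_zero_iff.mp h6
  have h8 := Pc_mem α x
  rwa [h7, sub_zero] at h8

/-- the projection preserves the invariant subspaces -/
theorem Pu_inv (K : Submodule ℂ W) (hK : ∀ x ∈ K, α x ∈ K) : ∀ x ∈ K, Pu α x ∈ K := by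
  intro x hx
  let T : End ℂ K := (α : W →ₗ[ℂ] W).restrict hK
  have hcomp := W_compl T
  have h0 : (⟨x, hx⟩ : K) ∈ Wu T ⊔ Wc T := by
    rw [hcomp.sup_eq_top]; exact Submodule.mem_top
  obtain ⟨a, ha, b, hb, hab⟩ := Submodule.mem_sup.mp h0
  have key : ∀ S : Set ℂ, (⨆ μ ∈ S, T.maxGenEigenspace μ : Submodule ℂ K) ≤
      (⨆ μ ∈ S, End.maxGenEigenspace (α : W →ₗ[ℂ] W) μ : Submodule ℂ W).comap K.subtype := by
    intro S
    refine iSup₂_le fun μ hμ v hv => ?_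
    have h1 : (v : W) ∈ End.maxGenEigenspace (α : W →ₗ[ℂ] W) μ := by
      rw [End.mem_maxGenEigenspace] at hv ⊢
      obtain ⟨k, hk⟩ := hv
      refine ⟨k, ?_⟩
      have h2 : ∀ (m : ℕ) (w : K), ((((T - μ • (1 : End ℂ K)) ^ m) w : K) : W) =
          (((α : W →ₗ[ℂ] W) - μ • (1 : End ℂ W)) ^ m) (w : W) := by
        intro m
        induction m with
        | zero => intro w; rfl
        | succ m ih =>
          intro w
          rw [pow_succ, pow_succ]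
          show ((((T - μ • (1 : End ℂ K)) ^ m) ((T - μ • (1 : End ℂ K)) w) : K) : W) = _
          rw [ih]
          rfl
      rw [← h2, hk]
      rfl
    exact (le_biSup (fun μ => End.maxGenEigenspace (α : W →ₗ[ℂ] W) μ) hμ) h1
  have ha' : (a : W) ∈ Wu (α : W →ₗ[ℂ] W) := key _ ha
  have hb' : (b : W) ∈ Wc (α : W →ₗ[ℂ] W) := key _ hb
  have hab' : (a : W) + (b : W) = x := congrArg Subtype.val hab
  have h1 : Pu α x = a := by
    apply Pu_eq α ha'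
    rw [← hab', add_sub_cancel_left]
    exact hb'
  rw [h1]
  exact a.2

end lin

end Pool.Agent.N234.NL
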