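import Pool.Agent.N234.NL.Grow
import Pool.Agent.N234.NL.Def
import Pool.Agent.N234.TG.Def

set_option autoImplicit false
set_option linter.unusedSectionVars false

open Filter Topology Set Module

namespace Pool.Agent.N234.NL

open Pool.Agent.W740.TC
open Pool.Agent.N234.TG (TransStr iterB Expanding InjUnstable)

noncomputable section

variable {𝒜 : Type*} [NormedRing 𝒜] [NormedAlgebra ℂ 𝒜] [FiniteDimensional ℂ 𝒜]
  {T : 𝒜ˣ} {D : FA (cj T)} {M : Type*} [TopologicalSpace M] [CompactSpace M]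
  {f : M ≃ₜ M} (C : LocalCocycle f (D.U : Set 𝒜ˣ) T)

theorem iterB_add {G : Type*} [Group G] (g : M → M) (B : M → G) (m n : ℕ) (x : M) :
    iterB g B (m + n) x = iterB g B m (g^[n] x) * iterB g B n x := by
  induction m with
  | zero => rw [Nat.zero_add]; exact (one_mul _).symm
  | succ m ih =>
    rw [Nat.add_right_comm]
    show B (g^[m + n] x) * iterB g B (m + n) x =
      B (g^[m] (g^[n] x)) * iterB g B m (g^[n] x) * iterB g B n x
    rw [ih, mul_assoc, Function.iterate_add_apply]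

namespace LocalCocycle

theorem tendsto_δ (x : M) : Tendsto (fun q : M × M => C.δ q.1 q.2) (𝓝 (x, x)) (𝓝 1) := by
  intro O hO
  exact nhds_le_nhdsSet (mem_diagonal x) (C.small O hO)

theorem mem_𝒱 (x : M) : C.𝒱 ∈ 𝓝 (x, x) := nhds_le_nhdsSet (mem_diagonal x) C.mem_nhds

theorem b_continuous : Continuous C.b := by
  rw [continuous_iff_continuousAt]
  intro x
  have h1 : Tendsto (fun y : M => (y, x)) (𝓝 x) (𝓝 (x, x)) :=
    (continuous_id.prodMk continuous_const).tendsto x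
  have h2 : Tendsto (fun y : M => (f y, f x)) (𝓝 x) (𝓝 (f x, f x)) :=
    (f.continuous.prodMk continuous_const).tendsto x
  have h3 : Tendsto (fun y : M => C.δ y x) (𝓝 x) (𝓝 1) := (C.tendsto_δ x).comp h1
  have h4 : Tendsto (fun y : M => C.δ (f y) (f x)) (𝓝 x) (𝓝 1) := (C.tendsto_δ (f x)).comp h2
  have h5 : Tendsto (fun y : M => T * C.δ y x * T⁻¹ * C.b x * (C.δ (f y) (f x))⁻¹) (𝓝 x)
      (𝓝 (T * 1 * T⁻¹ * C.b x * 1⁻¹)) :=
    ((((tendsto_const_nhds.mul h3).mul tendsto_const_nhds).mul tendsto_const_nhds).mul h4.inv)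
  rw [mul_one, mul_inv_cancel, one_mul, inv_one, mul_one] at h5
  refine h5.congr' ?_
  filter_upwards [h1 (C.mem_𝒱 x), h2 (C.mem_𝒱 (f x))] with y hy1 hy2
  rw [← C.map_f y x hy1 hy2, mul_inv_cancel_right]

/-- the section -/
def p : M → D.Uu := (D.exists_section f.continuous C.b_continuous C.b_mem).choose

theorem p_continuous : Continuous C.p :=
  (D.exists_section f.continuous C.b_continuous C.b_mem).choose_spec.1

theorem p_eq (x : M) : D.ku (C.b x * (C.p (f x) : 𝒜ˣ)) = T * C.p x * T⁻¹ :=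
  (D.exists_section f.continuous C.b_continuous C.b_mem).choose_spec.2 x

/-- the map in the charts -/
def Bm (x : M) : D.S := ⟨((C.b x)⁻¹ * T, Multiplicative.ofAdd 1), by
  show ((C.b x)⁻¹ * T) * (FA.tau T (Multiplicative.ofAdd 1))⁻¹ ∈ D.U
  rw [FA.tau_apply]
  show ((C.b x)⁻¹ * T) * (T ^ (1 : ℤ))⁻¹ ∈ D.U
  rw [zpow_one, mul_inv_cancel_right]
  exact D.U.inv_mem (C.b_mem x)⟩

/-- elements of `U` in the group -/
def inU (u : 𝒜ˣ) (hu : u ∈ D.U) : D.S := ⟨(u, 1), by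
  show u * (FA.tau T 1)⁻¹ ∈ D.U
  rwa [map_one, inv_one, mul_one]⟩

open Classical in
/-- the changes of charts -/
def pim (x y : M) : D.S := if h : C.δ x y ∈ D.U then inU _ h else 1

theorem pim_eq {x y : M} (h : C.δ x y ∈ D.U) : C.pim x y = inU _ h := by
  unfold pim
  rw [dif_pos h]

theorem pim_smul {x y : M} (h : C.δ x y ∈ D.U) :
    ((C.pim x y • C.p y : D.Uu) : 𝒜ˣ) = D.ku (C.δ x y * C.p y) := by
  rw [C.pim_eq h, FA.smul_val]
  show D.ku (C.δ x y * C.p y * (FA.tau T 1)⁻¹) = _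
  rw [map_one, inv_one, mul_one]

theorem Bm_smul (x : M) (k : D.Uu) :
    ((C.Bm x • k : D.Uu) : 𝒜ˣ) = D.ku ((C.b x)⁻¹ * T * k * T⁻¹) := by
  rw [FA.smul_val]
  show D.ku ((C.b x)⁻¹ * T * k * (T ^ (1 : ℤ))⁻¹) = _
  rw [zpow_one]

/-- the first product -/
def E₁ (x : M) : 𝒜ˣ := (C.p (f x) : 𝒜ˣ)⁻¹ * (C.b x)⁻¹ * (T * C.p x * T⁻¹)

theorem E₁_mem (x : M) : C.E₁ x ∈ D.Uc := by
  have hU : C.b x * (C.p (f x) : 𝒜ˣ) ∈ D.U := D.U.mul_mem (C.b_mem x) (D.Uu_le (C.p (f x)).2)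
  have h1 := D.ku_c hU
  rw [C.p_eq] at h1
  have h2 := D.Uc.inv_mem h1
  have h3 : ((T * (C.p x : 𝒜ˣ) * T⁻¹)⁻¹ * (C.b x * (C.p (f x) : 𝒜ˣ)))⁻¹ = C.E₁ x := by
    rw [mul_inv_rev, inv_inv, mul_inv_rev]
    rfl
  rwa [h3] at h2

theorem map_p (x : M) : C.Bm x • C.p x = C.p (f x) := by
  apply Subtype.ext
  rw [C.Bm_smul]
  have h1 : (C.b x)⁻¹ * T * (C.p x : 𝒜ˣ) * T⁻¹ = C.p (f x) * C.E₁ x := by
    unfold E₁
    simp only [mul_assoc, mul_inv_cancel_left]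
  rw [h1]
  exact D.ku_eq (C.p (f x)).2 (C.E₁_mem x)

theorem Bm_continuous : Continuous C.Bm := by
  rw [Topology.IsInducing.subtypeVal.continuous_iff]
  show Continuous (fun x => ((C.b x)⁻¹ * T, Multiplicative.ofAdd (1 : ℤ)))
  have := C.b_continuous
  fun_prop

theorem pim_tendsto (x : M) : Tendsto (fun q : M × M => C.pim q.1 q.2) (𝓝 (x, x)) (𝓝 1) := by
  rw [Topology.IsInducing.subtypeVal.tendsto_nhds_iff]
  have h1 : Tendsto (fun q : M × M => (C.δ q.1 q.2, (1 : Multiplicative ℤ))) (𝓝 (x, x))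
      (𝓝 ((1 : 𝒜ˣ), (1 : Multiplicative ℤ))) := (C.tendsto_δ x).prodMk_nhds tendsto_const_nhds
  refine h1.congr' ?_
  filter_upwards [C.mem_𝒱 x] with q hq
  show _ = (C.pim q.1 q.2 : 𝒜ˣ × Multiplicative ℤ)
  rw [C.pim_eq (C.δ_mem _ _ hq)]
  rfl

/-- a compact neighbourhood of `1` -/
def K₁ (𝒜 : Type*) [NormedRing 𝒜] [NormedAlgebra ℂ 𝒜] [FiniteDimensional ℂ 𝒜] : Set 𝒜ˣ :=
  (exists_compact_mem_nhds (1 : 𝒜ˣ)).choose

theorem K₁_compact : IsCompact (K₁ 𝒜) := (exists_compact_mem_nhds (1 : 𝒜ˣ)).choose_spec.1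
theorem K₁_mem : K₁ 𝒜 ∈ 𝓝 (1 : 𝒜ˣ) := (exists_compact_mem_nhds (1 : 𝒜ˣ)).choose_spec.2

/-- the transverse structure -/
def str {𝒱₀ : Set (M × M)} (h𝒱₀ : 𝒱₀ ∈ 𝓝ˢ (diagonal M)) : TransStr f D.S D.Uu where
  p := C.p
  π := C.pim
  B := C.Bm
  𝒱 := C.𝒱 ∩ {q : M × M | C.δ q.1 q.2 ∈ K₁ 𝒜} ∩ 𝒱₀
  mem_nhds := inter_mem (inter_mem C.mem_nhds (C.small _ K₁_mem)) h𝒱₀
  bounded_p := ⟨range C.p, isCompact_range C.p_continuous, fun x => mem_range_self x⟩
  bounded_π := by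
    refine ⟨range C.Bm ∪ Subtype.val ⁻¹' (K₁ 𝒜 ×ˢ {1}),
      (isCompact_range C.Bm_continuous).union ?_, fun x => Or.inl (mem_range_self x),
      fun x y hxy => Or.inr ?_⟩
    · exact D.isClosed_S.isClosedEmbedding_subtypeVal.isCompact_preimage
        (K₁_compact.prod isCompact_singleton)
    · show (C.pim x y : 𝒜ˣ × Multiplicative ℤ) ∈ K₁ 𝒜 ×ˢ {1}
      rw [C.pim_eq (C.δ_mem _ _ hxy.1.1)]
      exact ⟨hxy.1.2, rfl⟩
  cocycle x y z hxy hyz hxz := by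
    rw [C.pim_eq (C.δ_mem _ _ hxy.1.1), C.pim_eq (C.δ_mem _ _ hyz.1.1),
      C.pim_eq (C.δ_mem _ _ hxz.1.1)]
    apply Subtype.ext
    apply Prod.ext
    · exact C.cocycle x y z hxy.1.1 hyz.1.1 hxz.1.1
    · exact (one_mul _).symm
  continuous O hO := by
    rw [mem_nhdsSet_iff_forall]
    rintro ⟨x, y⟩ hxy
    have hxy' : x = y := hxy
    subst hxy'
    have h1 : Tendsto (fun q : M × M => (C.p q.1, C.pim q.1 q.2 • C.p q.2)) (𝓝 (x, x))
        (𝓝 (C.p x, (1 : D.S) • C.p x)) :=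
      ((C.p_continuous.comp continuous_fst).tendsto (x, x)).prodMk_nhds
        ((C.pim_tendsto x).smul ((C.p_continuous.comp continuous_snd).tendsto (x, x)))
    rw [one_smul] at h1
    exact h1 (nhds_le_nhdsSet (mem_diagonal (C.p x)) hO)
  map_f x y hxy hfxy := by
    rw [C.pim_eq (C.δ_mem _ _ hxy.1.1), C.pim_eq (C.δ_mem _ _ hfxy.1.1)]
    apply Subtype.ext
    apply Prod.ext
    · show C.δ (f x) (f y) * ((C.b y)⁻¹ * T) = (C.b x)⁻¹ * T * C.δ x y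
      have h1 := C.map_f x y hxy.1.1 hfxy.1.1
      have h2 : C.δ (f x) (f y) = (C.b x)⁻¹ * (T * C.δ x y * T⁻¹ * C.b y) := by
        rw [← h1, inv_mul_cancel_left]
      rw [h2]
      simp only [mul_assoc, mul_inv_cancel_left, inv_mul_cancel, mul_one]
    · show (1 : Multiplicative ℤ) * Multiplicative.ofAdd 1 = Multiplicative.ofAdd 1 * 1
      rw [one_mul, mul_one]
  map_p := C.map_p

/-- the products -/
def Gn (n : ℕ) (x : M) : 𝒜ˣ := (iterB f C.Bm n x).1.1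

theorem Gn_zero (x : M) : C.Gn 0 x = 1 := rfl

theorem Gn_succ (n : ℕ) (x : M) : C.Gn (n + 1) x = (C.b (f^[n] x))⁻¹ * T * C.Gn n x := rfl

theorem Gn_succ' (n : ℕ) (x : M) : C.Gn (n + 1) x = C.Gn n (f x) * ((C.b x)⁻¹ * T) := by
  unfold Gn
  rw [iterB_add (f : M → M) C.Bm n 1 x]
  show (iterB f C.Bm n (f x)).1.1 * ((C.b x)⁻¹ * T * 1) = _
  rw [mul_one]

theorem iterB_snd (n : ℕ) (x : M) : (iterB f C.Bm n x).1.2 = Multiplicative.ofAdd (n : ℤ) := by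
  induction n with
  | zero => rfl
  | succ n ih =>
    show Multiplicative.ofAdd 1 * (iterB f C.Bm n x).1.2 = _
    rw [ih, ← ofAdd_add, Nat.cast_succ, add_comm]

theorem iterB_smul (n : ℕ) (x : M) (v : D.Uu) :
    ((iterB f C.Bm n x • v : D.Uu) : 𝒜ˣ) = D.ku (C.Gn n x * v * (T ^ n)⁻¹) := by
  rw [FA.smul_val, C.iterB_snd, FA.tau_apply]
  show D.ku (C.Gn n x * v * (T ^ (n : ℤ))⁻¹) = _
  rw [zpow_natCast]

theorem iterB_p (n : ℕ) (x : M) : iterB f C.Bm n x • C.p x = C.p (f^[n] x) := by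
  induction n with
  | zero => exact one_smul _ _
  | succ n ih =>
    show (C.Bm (f^[n] x) * iterB f C.Bm n x) • C.p x = _
    rw [mul_smul, ih, C.map_p, Function.iterate_succ_apply']

/-- the error terms -/
def En (n : ℕ) (x : M) : 𝒜ˣ := (C.p (f^[n] x) : 𝒜ˣ)⁻¹ * (C.Gn n x * C.p x * (T ^ n)⁻¹)

theorem En_mem (n : ℕ) (x : M) : C.En n x ∈ D.Uc := by
  have h1 := congrArg Subtype.val (C.iterB_p n x)
  rw [C.iterB_smul] at h1
  have h2 := D.arg_mem (iterB f C.Bm n x) (C.p x)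
  rw [C.iterB_snd, FA.tau_apply] at h2
  have h3 : (iterB f C.Bm n x).1.1 * (C.p x : 𝒜ˣ) *
      (T ^ (Multiplicative.toAdd (Multiplicative.ofAdd (n : ℤ))))⁻¹ =
      C.Gn n x * C.p x * (T ^ n)⁻¹ := by
    show C.Gn n x * (C.p x : 𝒜ˣ) * (T ^ (n : ℤ))⁻¹ = _
    rw [zpow_natCast]
  rw [h3] at h2
  have h4 := D.ku_c h2
  rw [h1] at h4
  exact h4

theorem cj_iter (n : ℕ) (a : 𝒜) : (cj T)^[n] a = ((T ^ n : 𝒜ˣ) : 𝒜) * a * (((T ^ n)⁻¹ : 𝒜ˣ) : 𝒜) := by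
  induction n generalizing a with
  | zero => simp
  | succ n ih =>
    rw [Function.iterate_succ_apply, ih, cj_apply, pow_succ, mul_inv_rev, Units.val_mul,
      Units.val_mul]
    simp only [mul_assoc]

theorem En_succ (n : ℕ) (x : M) : C.En (n + 1) x = C.En n (f x) * (T ^ n * C.E₁ x * (T ^ n)⁻¹) := by
  unfold En E₁
  rw [C.Gn_succ', Function.iterate_succ_apply, pow_succ T n, mul_inv_rev]
  simp only [mul_assoc, inv_mul_cancel_left, mul_inv_cancel_left]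

theorem En_growth : SE (fun n x => ‖(C.En n x : 𝒜)‖) := by
  have hc : Continuous (fun x => (C.E₁ x : 𝒜) - 1) := by
    refine Continuous.sub ?_ continuous_const
    rw [← FA.continuous_units]
    unfold E₁
    have h1 := C.b_continuous
    have h2 := continuous_subtype_val.comp C.p_continuous
    have h3 : Continuous (fun x => (C.p (f x) : 𝒜ˣ)) := h2.comp f.continuous
    have h4 : Continuous (fun x => (C.p x : 𝒜ˣ)) := h2
    fun_prop
  obtain ⟨R, -, hR⟩ := bdd_of_continuous hc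
  refine D.prod_growth f (fun x => (C.E₁ x : 𝒜) - 1) (fun x => C.E₁_mem x) hR
    (E := fun n x => (C.En n x : 𝒜)) (fun x => ?_) (fun n x => ?_)
  · have h1 : C.En 0 x = 1 := by
      unfold En
      rw [C.Gn_zero, pow_zero, inv_one, mul_one, one_mul]
      exact inv_mul_cancel _
    show ((C.En 0 x : 𝒜ˣ) : 𝒜) = 1
    rw [h1]
    rfl
  · show ((C.En (n + 1) x : 𝒜ˣ) : 𝒜) = _
    rw [C.En_succ, Units.val_mul, cj_iter]
    congr 1
    rw [Units.val_mul, Units.val_mul, mul_sub, sub_mul, mul_one, Units.mul_inv]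
    abel

theorem En_inv_growth : SE (fun n x => ‖(((C.En n x)⁻¹ : 𝒜ˣ) : 𝒜)‖) := by
  refine (D.ginv_PB.se C.En_growth).mono fun n x => ?_
  rw [D.inv_val (D.Uc_le (C.En_mem n x))]

/-- bounds for the positions -/
theorem p_bdd : ∃ R : ℝ, 0 ≤ R ∧ ∀ x, ‖((C.p x : 𝒜ˣ) : 𝒜)‖ ≤ R ∧
    ‖(((C.p x : 𝒜ˣ)⁻¹ : 𝒜ˣ) : 𝒜)‖ ≤ R := by
  have h2 : Continuous (fun x => (C.p x : 𝒜ˣ)) := continuous_subtype_val.comp C.p_continuous
  obtain ⟨R, h0, hR⟩ := bdd_of_continuous (FA.continuous_units.mp h2)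
  obtain ⟨R', h0', hR'⟩ := bdd_of_continuous (FA.continuous_units.mp h2.inv)
  exact ⟨R + R', by positivity, fun x => ⟨(hR x).trans (by linarith), (hR' x).trans (by linarith)⟩⟩

end LocalCocycle

end

end Pool.Agent.N234.NL
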